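import Pool.Agent.Q224.GL.Law

/-!
# Project GL (helper269), job GL-TPR (by helper224)
-/

set_option autoImplicit false
set_option linter.all false

open scoped Classical
open Finset

namespace Pool.Agent.Q224.GL

open Pool.Agent.Q269.GL
open Pool.Agent.Q269.GR (Un)

theorem tprod_le_exp {f : ℕ → ℝ} (h0 : ∀ i, 0 ≤ f i) (hs : Summable f) :
    ∏' i, (1 + f i) ≤ Real.exp (∑' i, f i) := by
  have hm := Real.multipliable_one_add_of_summable hs
  refine le_of_tendsto' hm.hasProd.tendsto_prod_nat fun n => ?_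
  exact (Real.prod_one_add_le_exp_sum _ h0).trans
    (Real.exp_le_exp.2 (hs.sum_le_tsum _ fun _ _ => h0 _))

theorem one_sub_le_prod {f : ℕ → ℝ} (h0 : ∀ i, 0 ≤ f i) (h1 : ∀ i, f i ≤ 1) (s : Finset ℕ) :
    1 - ∑ r ∈ s, f r ≤ ∏ r ∈ s, (1 - f r) := by
  induction s using Finset.induction_on with
  | empty => simp
  | insert a s ha ih =>
    rw [Finset.sum_insert ha, Finset.prod_insert ha]
    have h3 : ∏ r ∈ s, (1 - f r) ≤ 1 :=
      Finset.prod_le_one (fun r _ => by linarith [h1 r]) (fun r _ => by linarith [h0 r])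
    have h4 := h0 a
    have h5 := h1 a
    nlinarith [mul_nonneg h4 (sub_nonneg.2 h3)]

theorem one_sub_le_tprod {f : ℕ → ℝ} (h0 : ∀ i, 0 ≤ f i) (h1 : ∀ i, f i ≤ 1) (hs : Summable f) :
    1 - ∑' i, f i ≤ ∏' i, (1 - f i) := by
  have hm : Multipliable fun i => 1 - f i := by
    have := Real.multipliable_one_add_of_summable hs.neg
    refine this.congr fun i => ?_
    ring
  refine ge_of_tendsto' hm.hasProd.tendsto_prod_nat fun n => ?_
  have h2 := one_sub_le_prod h0 h1 (range n)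
  have h3 := hs.sum_le_tsum (range n) fun i _ => h0 i
  linarith

theorem geo_bound {f : ℕ → ℝ} {x : ℝ} (h0 : ∀ i, 0 ≤ f i) (h : ∀ i, f i ≤ x * (1 / 2) ^ i) :
    Summable f ∧ ∑' i, f i ≤ 2 * x := by
  have hg : Summable fun i : ℕ => x * (1 / 2 : ℝ) ^ i :=
    (summable_geometric_of_lt_one (by norm_num) (by norm_num)).mul_left x
  have hs : Summable f := Summable.of_nonneg_of_le h0 h hg
  refine ⟨hs, ?_⟩
  have h1 := hs.tsum_le_tsum h hg
  rw [tsum_mul_left, tsum_geometric_of_lt_one (by norm_num) (by norm_num)] at h1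
  linarith

theorem lawU_zero {Q : ℝ} (hQ : 2 ≤ Q) : 1 - 2 * Q⁻¹ ≤ lawU Q 0 := by
  have hx0 : 0 < Q⁻¹ := inv_pos.2 (by linarith)
  have hx1 : Q⁻¹ ≤ 1 / 2 := by
    rw [inv_le_comm₀ (by linarith) (by norm_num)]
    linarith
  obtain ⟨x, hx⟩ : ∃ x, x = Q⁻¹ := ⟨_, rfl⟩
  unfold lawU
  rw [← hx] at hx0 hx1 ⊢
  have hf0 : ∀ i : ℕ, 0 ≤ x ^ (2 * i + 1) := fun i => by positivity
  obtain ⟨hs, hS⟩ := geo_bound (f := fun i : ℕ => x ^ (2 * i + 1)) (x := x) hf0 (by
    intro i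
    have e : x ^ (2 * i + 1) = x * (x ^ 2) ^ i := by rw [← pow_mul]; ring
    rw [e]
    apply mul_le_mul_of_nonneg_left _ hx0.le
    apply pow_le_pow_left₀ (by positivity)
    nlinarith)
  have h1 := tprod_le_exp hf0 hs
  have hpos : 0 < ∏' i : ℕ, (1 + x ^ (2 * i + 1)) := by
    have : (1 : ℝ) ≤ ∏' i : ℕ, (1 + x ^ (2 * i + 1)) := by
      refine ge_of_tendsto' (Real.multipliable_one_add_of_summable hs).hasProd.tendsto_prod_nat
        fun n => ?_
      have := Finset.prod_le_prod (s := range n) (f := fun _ => (1 : ℝ))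
        (g := fun i => 1 + x ^ (2 * i + 1)) (fun _ _ => by norm_num)
        (fun i _ => by have := hf0 i; linarith)
      simpa using this
    linarith
  have h2 : Real.exp (-(∑' i : ℕ, x ^ (2 * i + 1))) ≤ (∏' i : ℕ, (1 + x ^ (2 * i + 1)))⁻¹ := by
    rw [Real.exp_neg]
    exact inv_anti₀ hpos h1
  have h3 := Real.add_one_le_exp (-(∑' i : ℕ, x ^ (2 * i + 1)))
  have e : (∏' i : ℕ, (1 + x ^ (2 * i + 1)))⁻¹ * x ^ 0 ^ 2 / ∏ i ∈ range 0, (1 - x ^ (2 * (i + 1))) =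
      (∏' i : ℕ, (1 + x ^ (2 * i + 1)))⁻¹ := by
    simp
  rw [e]
  linarith

theorem lawN_zero {q : ℝ} (hq : 2 ≤ q) : 1 - 2 * q⁻¹ ≤ lawN q 0 := by
  have hx0 : 0 < q⁻¹ := inv_pos.2 (by linarith)
  have hx1 : q⁻¹ ≤ 1 / 2 := by
    rw [inv_le_comm₀ (by linarith) (by norm_num)]
    linarith
  obtain ⟨x, hx⟩ : ∃ x, x = q⁻¹ := ⟨_, rfl⟩
  unfold lawN
  rw [← hx] at hx0 hx1 ⊢
  have hf0 : ∀ i : ℕ, 0 ≤ x ^ (i + 1) := fun i => by positivity
  obtain ⟨hs, hS⟩ := geo_bound (f := fun i : ℕ => x ^ (i + 1)) (x := x) hf0 (by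
    intro i
    have e : x ^ (i + 1) = x * x ^ i := by ring
    rw [e]
    apply mul_le_mul_of_nonneg_left _ hx0.le
    exact pow_le_pow_left₀ (by positivity) hx1 i)
  have h1 := one_sub_le_tprod hf0 (fun i => pow_le_one₀ hx0.le (by linarith)) hs
  have e : (∏' i : ℕ, (1 - x ^ (i + 1))) * x ^ 0 ^ 2 / (∏ i ∈ range 0, (1 - x ^ (i + 1))) ^ 2 =
      ∏' i : ℕ, (1 - x ^ (i + 1)) := by
    simp
  rw [e]
  linarith

/-- the probability that something occurs -/
theorem lawR_zero {r : ℕ} (hr : Odd r) (h1 : 1 < r) :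
    1 - lawR r 0 ≤ 4 * (2 : ℝ) ^ (-((1 / 2 : ℝ) * (orderOf (2 : ZMod r) : ℝ))) := by
  have ho := ord_ge hr h1
  unfold lawR
  set f := orderOf (2 : ZMod r) with hf
  by_cases hU : Un r
  · rw [if_pos hU]
    have hQ : (2 : ℝ) ≤ 2 ^ (f / 2) := by
      calc (2 : ℝ) = 2 ^ 1 := by norm_num
        _ ≤ 2 ^ (f / 2) := pow_le_pow_right₀ (by norm_num) (by omega)
    have h2 := lawU_zero hQ
    have h3 : ((2 : ℝ) ^ (f / 2))⁻¹ ≤ 2 * (2 : ℝ) ^ (-((1 / 2 : ℝ) * (f : ℝ))) := by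
      have e1 : ((2 : ℝ) ^ (f / 2))⁻¹ = (2 : ℝ) ^ (-((f / 2 : ℕ) : ℝ)) := by
        rw [Real.rpow_neg (by norm_num), Real.rpow_natCast]
      have e2 : 2 * (2 : ℝ) ^ (-((1 / 2 : ℝ) * (f : ℝ))) = (2 : ℝ) ^ (1 + -((1 / 2 : ℝ) * (f : ℝ))) := by
        rw [Real.rpow_add (by norm_num), Real.rpow_one]
      rw [e1, e2]
      apply Real.rpow_le_rpow_of_exponent_le (by norm_num)
      have h4 : f ≤ 2 * (f / 2) + 1 := by omega
      have h5 : (f : ℝ) ≤ 2 * ((f / 2 : ℕ) : ℝ) + 1 := by exact_mod_cast h4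
      linarith
    linarith
  · rw [if_neg hU]
    have hQ : (2 : ℝ) ≤ 2 ^ f := by
      calc (2 : ℝ) = 2 ^ 1 := by norm_num
        _ ≤ 2 ^ f := pow_le_pow_right₀ (by norm_num) (by omega)
    have h2 := lawN_zero hQ
    have h3 : ((2 : ℝ) ^ f)⁻¹ ≤ (2 : ℝ) ^ (-((1 / 2 : ℝ) * (f : ℝ))) := by
      have e1 : ((2 : ℝ) ^ f)⁻¹ = (2 : ℝ) ^ (-(f : ℝ)) := by
        rw [Real.rpow_neg (by norm_num), Real.rpow_natCast]
      rw [e1]
      apply Real.rpow_le_rpow_of_exponent_le (by norm_num)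
      have h5 : (0 : ℝ) ≤ f := Nat.cast_nonneg _
      linarith
    have h4 : (0 : ℝ) ≤ (2 : ℝ) ^ (-((1 / 2 : ℝ) * (f : ℝ))) := by positivity
    linarith

/-- the factor minus one -/
noncomputable def Ff (T : Set ℕ) (r : ℕ) : ℝ := if Td T r then lawR r 0 ^ (rp r).card - 1 else 0

theorem Ff_le {T : Set ℕ} (hT : Adt T) (h3 : S_LWU) (h4 : S_LWN) (r : ℕ) : Ff T r ≤ 0 := by
  unfold Ff
  split_ifs with h
  · have ho := hT.1 r h.1
    have h1 := lawR_le h3 h4 ho h.2 0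
    have h2 := ((lawR_facts h3 h4 ho h.2).1 0).le
    linarith [pow_le_one₀ (n := (rp r).card) h2 h1]
  · exact le_rfl

theorem Ff_pos {T : Set ℕ} (hT : Adt T) (h3 : S_LWU) (h4 : S_LWN) (r : ℕ) : 0 < 1 + Ff T r := by
  unfold Ff
  split_ifs with h
  · have ho := hT.1 r h.1
    have h2 := ((lawR_facts h3 h4 ho h.2).1 0)
    have := pow_pos h2 (rp r).card
    linarith
  · norm_num

theorem rp_card (r : ℕ) : (rp r).card ≤ r := by
  unfold rp
  refine (card_filter_le _ _).trans ?_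
  rw [card_range]

theorem Ff_bound {T : Set ℕ} (hT : Adt T) (h3 : S_LWU) (h4 : S_LWN) {r : ℕ} (h : Td T r) :
    -Ff T r ≤ r * (4 * (2 : ℝ) ^ (-((1 / 2 : ℝ) * (orderOf (2 : ZMod r) : ℝ)))) := by
  have ho := hT.1 r h.1
  unfold Ff
  rw [if_pos h]
  have h1 := lawR_le h3 h4 ho h.2 0
  have h2 := ((lawR_facts h3 h4 ho h.2).1 0).le
  have h5 := one_add_mul_le_pow (a := lawR r 0 - 1) (by linarith) (rp r).card
  have e : 1 + (lawR r 0 - 1) = lawR r 0 := by ring
  rw [e] at h5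
  have h6 := lawR_zero ho h.2
  have h7 : ((rp r).card : ℝ) ≤ r := by exact_mod_cast rp_card r
  have h8 : ((rp r).card : ℝ) * (1 - lawR r 0) ≤ r * (1 - lawR r 0) :=
    mul_le_mul_of_nonneg_right h7 (by linarith)
  have h9 : (r : ℝ) * (1 - lawR r 0) ≤
      r * (4 * (2 : ℝ) ^ (-((1 / 2 : ℝ) * (orderOf (2 : ZMod r) : ℝ)))) :=
    mul_le_mul_of_nonneg_left h6 (Nat.cast_nonneg _)
  nlinarith

theorem Ff_summable {T : Set ℕ} (hT : Adt T) (h2 : Pool.Agent.Q269.GR.S_ORD) (h3 : S_LWU)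
    (h4 : S_LWN) : Summable (Ff T) := by
  obtain ⟨R, hR⟩ := hT.2
  have hs1 : Summable fun r : ℕ => if r ≤ R then -Ff T r else 0 := by
    refine summable_of_ne_finset_zero (s := range (R + 1)) fun r hr => ?_
    rw [Finset.mem_range] at hr
    exact if_neg (fun h => by omega)
  have hmain : Summable fun r => -Ff T r := by
    refine Summable.of_nonneg_of_le (fun r => ?_) (fun r => ?_)
      (hs1.add ((h2 (3 / 8) (by norm_num)).mul_left 4))
    · linarith [Ff_le hT h3 h4 r]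
    · have hnn : (0 : ℝ) ≤
          4 * (if Odd r then (2 : ℝ) ^ (-((3 / 8 : ℝ) * (orderOf (2 : ZMod r) : ℝ))) else 0) := by
        split_ifs
        · positivity
        · simp
      by_cases hrR : r ≤ R
      · rw [if_pos hrR]
        linarith
      · rw [if_neg hrR, zero_add]
        by_cases h : Td T r
        · have ho := hT.1 r h.1
          refine (Ff_bound hT h3 h4 h).trans ?_
          rw [if_pos ho]
          have h5 := hR r h.1 (by omega)
          set f := orderOf (2 : ZMod r) with hf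
          have h6 : (r : ℝ) ≤ (2 : ℝ) ^ ((1 / 8 : ℝ) * (f : ℝ)) := by
            have h7 : ((r : ℝ)) ^ 8 ≤ ((2 : ℝ) ^ ((1 / 8 : ℝ) * (f : ℝ))) ^ 8 := by
              have e1 : ((2 : ℝ) ^ ((1 / 8 : ℝ) * (f : ℝ))) ^ 8 = 2 ^ f := by
                rw [← Real.rpow_natCast, ← Real.rpow_mul (by norm_num), ← Real.rpow_natCast]
                congr 1
                push_cast
                ring
              rw [e1]
              exact_mod_cast h5
            exact le_of_pow_le_pow_left₀ (by norm_num) (by positivity) h7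
          calc (r : ℝ) * (4 * (2 : ℝ) ^ (-((1 / 2 : ℝ) * (f : ℝ)))) ≤
                (2 : ℝ) ^ ((1 / 8 : ℝ) * (f : ℝ)) * (4 * (2 : ℝ) ^ (-((1 / 2 : ℝ) * (f : ℝ)))) :=
                mul_le_mul_of_nonneg_right h6 (by positivity)
            _ = 4 * ((2 : ℝ) ^ ((1 / 8 : ℝ) * (f : ℝ)) * (2 : ℝ) ^ (-((1 / 2 : ℝ) * (f : ℝ)))) := by
                ring
            _ = 4 * (2 : ℝ) ^ (-((3 / 8 : ℝ) * (f : ℝ))) := by
                rw [← Real.rpow_add (by norm_num)]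
                congr 2
                ring
        · have : Ff T r = 0 := by unfold Ff; rw [if_neg h]
          rw [this, neg_zero]
          exact hnn
  have := hmain.neg
  simpa using this

/-- **JOB GL-TPR** -/
theorem t_TPR (h1 : Pool.Agent.Q269.GJ.S_SMD) (h2 : Pool.Agent.Q269.GR.S_ORD) (h3 : S_LWU)
    (h4 : S_LWN) (h5 : S_RPX) : S_TPR := by
  intro T hT
  have hs := Ff_summable hT h2 h3 h4
  have hm := Real.multipliable_one_add_of_summable hs
  have hPT : PT T = ∏' r : ℕ, (1 + Ff T r) := by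
    have e1 : (Set.ofPred fun r => Td T r).mulIndicator (fun r => lawR r 0 ^ (rp r).card) =
        fun r => 1 + Ff T r := by
      funext r
      unfold Ff
      by_cases h : Td T r
      · rw [Set.mulIndicator_of_mem (by exact h), if_pos h]
        ring
      · rw [Set.mulIndicator_of_notMem (by exact h), if_neg h]
        ring
    rw [← e1, ← _root_.tprod_subtype]
    rfl
  have hpos : 0 < PT T := by
    rw [hPT]
    have h6 : ∏' r : ℕ, (1 + Ff T r) ≠ 0 :=
      tprod_one_add_ne_zero_of_summable (fun i => (Ff_pos hT h3 h4 i).ne') hs.norm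
    have h7 : 0 ≤ ∏' r : ℕ, (1 + Ff T r) :=
      ge_of_tendsto' hm.hasProd.tendsto_prod_nat fun n =>
        prod_nonneg fun i _ => (Ff_pos hT h3 h4 i).le
    exact lt_of_le_of_ne h7 (Ne.symm h6)
  refine ⟨hpos, ?_⟩
  rw [hPT]
  have h8 := hm.hasProd.tendsto_prod_nat.comp (Filter.tendsto_add_atTop_nat 1)
  refine h8.congr fun y => ?_
  rw [Finset.prod_filter]
  refine Finset.prod_congr rfl fun r _ => ?_
  unfold Ff
  split_ifs <;> ring

end Pool.Agent.Q224.GL
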