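import Pool.Agent.Q64.GL.Stm

/-!
# Project GL, job AB: the weights in `A_2` satisfy the tail condition
-/

set_option autoImplicit false

open MeasureTheory Set Filter Topology
open scoped ENNReal NNReal Real

namespace Pool.Agent.Q224.GL

open Pool.Agent.Q64.GL

theorem m_mono {u : ℝ → ℝ≥0∞} {z y z' y' : ℝ} (h : Ioo (z - y) (z + y) ⊆ Ioo (z' - y') (z' + y')) :
    m u z y ≤ m u z' y' := lintegral_mono_set h

theorem of2 (y : ℝ) : ENNReal.ofReal (2 * y) = 2 * ENNReal.ofReal y := by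
  rw [ENNReal.ofReal_mul (by norm_num)]
  norm_num

/-- Cauchy-Schwarz -/
theorem cs {w : ℝ → ℝ≥0∞} (hm : Measurable w) (h0 : ∀ x, w x ≠ 0) (ht : ∀ x, w x ≠ ∞) (z y : ℝ) :
    ENNReal.ofReal (2 * y) ^ (2 : ℕ) ≤ m w z y * m (fun x => (w x)⁻¹) z y := by
  have h := ENNReal.lintegral_mul_norm_pow_le (μ := volume.restrict (Ioo (z - y) (z + y)))
    (f := w) (g := fun x => (w x)⁻¹) hm.aemeasurable hm.inv.aemeasurable (p := 1 / 2) (q := 1 / 2)
    (by norm_num) (by norm_num) (by norm_num)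
  have e : ∀ x, w x ^ (1 / 2 : ℝ) * (w x)⁻¹ ^ (1 / 2 : ℝ) = 1 := by
    intro x
    rw [← ENNReal.mul_rpow_of_nonneg _ _ (by norm_num), ENNReal.mul_inv_cancel (h0 x) (ht x),
      ENNReal.one_rpow]
  simp_rw [e] at h
  rw [setLIntegral_one, Real.volume_Ioo] at h
  have e2 : z + y - (z - y) = 2 * y := by ring
  rw [e2, ← ENNReal.mul_rpow_of_nonneg _ _ (by norm_num)] at h
  have h2 := ENNReal.rpow_le_rpow h (show (0 : ℝ) ≤ 2 by norm_num)
  rw [← ENNReal.rpow_mul] at h2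
  norm_num at h2
  rw [of2 y]
  exact h2

/-- `A_2` weights, elementary form -/
structure W2 (w : ℝ → ℝ≥0∞) (Q : ℝ≥0) : Prop where
  meas : Measurable w
  pos : ∀ x, w x ≠ 0
  fin : ∀ x, w x ≠ ∞
  a2 : ∀ z y, 0 < y → m w z y * m (fun x => (w x)⁻¹) z y ≤ Q * ENNReal.ofReal (2 * y) ^ (2 : ℕ)

theorem W2.inv {w : ℝ → ℝ≥0∞} {Q : ℝ≥0} (h : W2 w Q) : W2 (fun x => (w x)⁻¹) Q where
  meas := h.meas.inv
  pos := fun x => ENNReal.inv_ne_zero.2 (h.fin x)
  fin := fun x => ENNReal.inv_ne_top.2 (h.pos x)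
  a2 := by
    intro z y hy
    have := h.a2 z y hy
    simp_rw [inv_inv]
    rw [mul_comm]
    exact this

theorem m_ne_zero {w : ℝ → ℝ≥0∞} (hm : Measurable w) (h0 : ∀ x, w x ≠ 0) {z y : ℝ} (hy : 0 < y) :
    m w z y ≠ 0 := by
  intro h
  unfold m at h
  rw [lintegral_eq_zero_iff hm] at h
  have h1 : (volume.restrict (Ioo (z - y) (z + y))) univ = 0 := by
    have h2 : ∀ᵐ x ∂(volume.restrict (Ioo (z - y) (z + y))), False := by
      filter_upwards [h] with x hx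
      exact h0 x hx
    rw [ae_iff] at h2
    simpa using h2
  rw [Measure.restrict_apply_univ, Real.volume_Ioo, ENNReal.ofReal_eq_zero] at h1
  linarith

theorem W2.m_fin {w : ℝ → ℝ≥0∞} {Q : ℝ≥0} (h : W2 w Q) (z y : ℝ) : m w z y ≠ ∞ := by
  rcases le_or_gt y 0 with hy | hy
  · unfold m
    rw [Ioo_eq_empty (by linarith)]
    simp
  · intro ht
    have h1 := h.a2 z y hy
    rw [ht, ENNReal.top_mul (m_ne_zero h.inv.meas h.inv.pos hy)] at h1
    exact absurd (lt_of_le_of_lt h1 (ENNReal.mul_lt_top ENNReal.coe_lt_top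
      (ENNReal.pow_lt_top ENNReal.ofReal_lt_top))) (lt_irrefl _)

/-- the real masses -/
noncomputable def mr (w : ℝ → ℝ≥0∞) (z y : ℝ) : ℝ := (m w z y).toReal

section

variable {w : ℝ → ℝ≥0∞} {Q : ℝ≥0}

theorem W2.mr_pos (h : W2 w Q) {z y : ℝ} (hy : 0 < y) : 0 < mr w z y :=
  ENNReal.toReal_pos (m_ne_zero h.meas h.pos hy) (h.m_fin z y)

theorem W2.mr_mono (h : W2 w Q) {z y z' y' : ℝ}
    (hs : Ioo (z - y) (z + y) ⊆ Ioo (z' - y') (z' + y')) : mr w z y ≤ mr w z' y' :=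
  ENNReal.toReal_mono (h.m_fin z' y') (m_mono hs)

theorem W2.mr_a2 (h : W2 w Q) {z y : ℝ} (hy : 0 < y) :
    mr w z y * mr (fun x => (w x)⁻¹) z y ≤ Q * (2 * y) ^ 2 := by
  have h1 := h.a2 z y hy
  have h2 := ENNReal.toReal_mono (ENNReal.mul_ne_top ENNReal.coe_ne_top
    (ENNReal.pow_ne_top ENNReal.ofReal_ne_top)) h1
  rw [ENNReal.toReal_mul, ENNReal.toReal_mul, ENNReal.toReal_pow,
    ENNReal.toReal_ofReal (by positivity)] at h2
  exact h2

theorem W2.mr_cs (h : W2 w Q) {z y : ℝ} (hy : 0 < y) :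
    (2 * y) ^ 2 ≤ mr w z y * mr (fun x => (w x)⁻¹) z y := by
  have h1 := cs h.meas h.pos h.fin z y
  have h2 := ENNReal.toReal_mono (ENNReal.mul_ne_top (h.m_fin z y) (h.inv.m_fin z y)) h1
  rw [ENNReal.toReal_mul, ENNReal.toReal_pow, ENNReal.toReal_ofReal (by positivity)] at h2
  exact h2

theorem W2.one_le (h : W2 w Q) : 1 ≤ (Q : ℝ) := by
  have h1 := (h.mr_cs (z := 0) one_pos).trans (h.mr_a2 one_pos)
  nlinarith

/-- doubling -/
theorem W2.dbl (h : W2 w Q) {z y z' y' : ℝ} (hy : 0 < y) (hy' : 0 < y')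
    (hs : Ioo (z - y) (z + y) ⊆ Ioo (z' - y') (z' + y')) {c : ℝ} (hc : y' ≤ c * y) :
    mr w z' y' ≤ Q * c ^ 2 * mr w z y := by
  have h1 := h.mr_cs (z := z) hy
  have h2 := h.inv.mr_mono hs
  have h3 := h.mr_a2 (z := z') hy'
  have p1 := h.mr_pos (z := z) hy
  have p2 := h.mr_pos (z := z') hy'
  have hQ := h.one_le
  have hc0 : (2 * y') ^ 2 ≤ c ^ 2 * (2 * y) ^ 2 := by nlinarith
  have h4 : (2 * y) ^ 2 * mr w z' y' ≤ (2 * y) ^ 2 * (Q * c ^ 2 * mr w z y) := by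
    calc (2 * y) ^ 2 * mr w z' y'
        ≤ (mr w z y * mr (fun x => (w x)⁻¹) z y) * mr w z' y' := by gcongr
      _ ≤ (mr w z y * mr (fun x => (w x)⁻¹) z' y') * mr w z' y' := by gcongr
      _ = mr w z y * (mr w z' y' * mr (fun x => (w x)⁻¹) z' y') := by ring
      _ ≤ mr w z y * (Q * (2 * y') ^ 2) := by gcongr
      _ ≤ mr w z y * (Q * (c ^ 2 * (2 * y) ^ 2)) := by gcongr
      _ = (2 * y) ^ 2 * (Q * c ^ 2 * mr w z y) := by ring
  exact le_of_mul_le_mul_left h4 (by positivity)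

/-- reverse doubling -/
theorem W2.rev (h : W2 w Q) {z y : ℝ} (hy : 0 < y) :
    16 * Q * mr w z y ≤ (16 * Q - 1) * mr w z (2 * y) := by
  have hQ := h.one_le
  have hd := h.dbl (z := z + 3 * y / 2) (y := y / 2) (z' := z) (y' := 2 * y) (by linarith)
    (by linarith) (by
      apply Ioo_subset_Ioo <;> linarith) (c := 4) (by linarith)
  have hsum : mr w z y + mr w (z + 3 * y / 2) (y / 2) ≤ mr w z (2 * y) := by
    unfold mr
    rw [← ENNReal.toReal_add (h.m_fin _ _) (h.m_fin _ _)]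
    apply ENNReal.toReal_mono (h.m_fin _ _)
    unfold m
    rw [← lintegral_union measurableSet_Ioo]
    · apply lintegral_mono_set
      apply union_subset <;> apply Ioo_subset_Ioo <;> linarith
    · rw [Set.disjoint_left]
      rintro x ⟨_, hx⟩ ⟨hx2, _⟩
      linarith
  nlinarith

/-- iterated reverse doubling -/
theorem W2.rev_pow (h : W2 w Q) {z y : ℝ} (hy : 0 < y) (k : ℕ) :
    mr w z y ≤ ((16 * Q - 1) / (16 * Q)) ^ k * mr w z (2 ^ k * y) := by
  have hQ := h.one_le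
  induction k with
  | zero => simp
  | succ k ih =>
    have h1 := h.rev (z := z) (y := 2 ^ k * y) (by positivity)
    have e : 2 * (2 ^ k * y) = 2 ^ (k + 1) * y := by ring
    rw [e] at h1
    have hQ0 : (0 : ℝ) < 16 * Q := by linarith
    have h2 : mr w z (2 ^ k * y) ≤ (16 * Q - 1) / (16 * Q) * mr w z (2 ^ (k + 1) * y) := by
      rw [div_mul_eq_mul_div, le_div_iff₀ hQ0]
      linarith
    have h3 : 0 ≤ (16 * (Q : ℝ) - 1) / (16 * Q) := div_nonneg (by linarith) hQ0.le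
    calc mr w z y ≤ ((16 * Q - 1) / (16 * Q)) ^ k * mr w z (2 ^ k * y) := ih
      _ ≤ ((16 * Q - 1) / (16 * Q)) ^ k * ((16 * Q - 1) / (16 * Q) * mr w z (2 ^ (k + 1) * y)) := by
          gcongr
      _ = _ := by rw [pow_succ]; ring

/-- growth of the masses -/
theorem W2.grow (h : W2 w Q) {z y : ℝ} (hy : 0 < y) (k : ℕ) :
    mr w z (2 ^ k * y) ≤ Q * (4 * ((16 * Q - 1) / (16 * Q))) ^ k * mr w z y := by
  have hQ := h.one_le
  have hQ0 : (0 : ℝ) < 16 * Q := by linarith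
  have hθ : 0 ≤ (16 * (Q : ℝ) - 1) / (16 * Q) := div_nonneg (by linarith) hQ0.le
  have h1 := h.inv.rev_pow (z := z) hy k
  have h2 := h.mr_a2 (z := z) (y := 2 ^ k * y) (by positivity)
  have h3 := h.mr_cs (z := z) hy
  have p1 := h.inv.mr_pos (z := z) hy
  have p2 := h.mr_pos (z := z) (y := 2 ^ k * y) (by positivity)
  have h4 : mr w z (2 ^ k * y) * mr (fun x => (w x)⁻¹) z y ≤
      (Q * (4 * ((16 * Q - 1) / (16 * Q))) ^ k * mr w z y) * mr (fun x => (w x)⁻¹) z y := by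
    calc mr w z (2 ^ k * y) * mr (fun x => (w x)⁻¹) z y
        ≤ mr w z (2 ^ k * y) * (((16 * Q - 1) / (16 * Q)) ^ k *
            mr (fun x => (w x)⁻¹) z (2 ^ k * y)) := by gcongr
      _ = ((16 * Q - 1) / (16 * Q)) ^ k *
            (mr w z (2 ^ k * y) * mr (fun x => (w x)⁻¹) z (2 ^ k * y)) := by ring
      _ ≤ ((16 * Q - 1) / (16 * Q)) ^ k * (Q * (2 * (2 ^ k * y)) ^ 2) := by gcongr
      _ = ((16 * Q - 1) / (16 * Q)) ^ k * Q * 4 ^ k * (2 * y) ^ 2 := by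
          have e : (4 : ℝ) ^ k = (2 ^ k) ^ 2 := by rw [← pow_mul, mul_comm, pow_mul]; norm_num
          rw [e]
          ring
      _ ≤ ((16 * Q - 1) / (16 * Q)) ^ k * Q * 4 ^ k *
            (mr w z y * mr (fun x => (w x)⁻¹) z y) := by gcongr
      _ = _ := by rw [mul_pow]; ring
  exact le_of_mul_le_mul_right h4 p1

end

/-- the kernel is bounded by a sum over the dyadic intervals -/
theorem ker_le {z y : ℝ} (hy : 0 < y) (x : ℝ) : ∃ k : ℕ,
    x ∈ Ioo (z - 2 ^ k * y) (z + 2 ^ k * y) ∧ ker 2 x z y ≤ 4 * (1 / 4) ^ k := by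
  have hex : ∃ k : ℕ, |x - z| < 2 ^ k * y := by
    obtain ⟨k, hk⟩ := pow_unbounded_of_one_lt (|x - z| / y) (one_lt_two (α := ℝ))
    exact ⟨k, by rwa [div_lt_iff₀ hy] at hk⟩
  classical
  set k := Nat.find hex with hkdef
  have hk := Nat.find_spec hex
  rw [← hkdef] at hk
  refine ⟨k, ?_, ?_⟩
  · rw [abs_lt] at hk
    constructor <;> linarith [hk.1, hk.2]
  · unfold Pool.Agent.Q64.GL.ker
    have h0 : 0 ≤ |x - z| := abs_nonneg _
    have hpos : 0 < |x - z| + y := by linarith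
    have h1 : 0 ≤ y / (|x - z| + y) := by positivity
    have h3 : (y / (|x - z| + y)) ^ (2 : ℝ) = (y / (|x - z| + y)) ^ 2 := by
      exact_mod_cast Real.rpow_natCast _ 2
    rw [h3]
    rcases Nat.eq_zero_or_pos k with hk0 | hk0
    · rw [hk0, pow_zero, mul_one]
      have h2 : y / (|x - z| + y) ≤ 1 := by
        rw [div_le_one hpos]
        linarith
      nlinarith
    · obtain ⟨j, hj⟩ : ∃ j, k = j + 1 := ⟨k - 1, by omega⟩
      have h4 : ¬ |x - z| < 2 ^ j * y := Nat.find_min hex (by omega)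
      rw [hj]
      have h5 : y / (|x - z| + y) ≤ (1 / 2) ^ j := by
        rw [div_le_iff₀ hpos, one_div, inv_pow, ← div_eq_inv_mul, le_div_iff₀ (by positivity)]
        nlinarith
      calc (y / (|x - z| + y)) ^ 2 ≤ ((1 / 2) ^ j) ^ 2 := pow_le_pow_left₀ h1 h5 2
        _ = 4 * (1 / 4) ^ (j + 1) := by
            rw [← pow_mul, mul_comm j 2, pow_mul, pow_succ (1 / 4 : ℝ) j]
            norm_num
            ring

theorem W2.tail {w : ℝ → ℝ≥0∞} {Q : ℝ≥0} (h : W2 w Q) : Tail 2 w (64 * Q ^ 2) := by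
  intro z y hy
  have hQ := h.one_le
  have hQ0 : (0 : ℝ) < 16 * Q := by linarith
  set θ : ℝ := (16 * Q - 1) / (16 * Q) with hθdef
  have hθ : 0 ≤ θ := div_nonneg (by linarith) hQ0.le
  have hθ1 : θ < 1 := by
    rw [hθdef, div_lt_one hQ0]
    linarith
  have hθ2 : 1 - θ = 1 / (16 * Q) := by
    rw [hθdef]
    field_simp
    ring
  have h1 : ∀ x, ENNReal.ofReal (ker 2 x z y) * w x ≤ ∑' k : ℕ,
      (Ioo (z - 2 ^ k * y) (z + 2 ^ k * y)).indicator
        (fun x => ENNReal.ofReal (4 * (1 / 4) ^ k) * w x) x := by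
    intro x
    obtain ⟨k, hk1, hk2⟩ := ker_le hy x
    refine le_trans ?_ (ENNReal.le_tsum k)
    rw [Set.indicator_of_mem hk1]
    exact mul_le_mul_left (ENNReal.ofReal_le_ofReal hk2) _
  refine (lintegral_mono h1).trans ?_
  have hmn : ∀ k : ℕ, Measurable (fun x => (Ioo (z - 2 ^ k * y) (z + 2 ^ k * y)).indicator
        (fun x => ENNReal.ofReal (4 * (1 / 4) ^ k) * w x) x) := fun k =>
    (h.meas.const_mul _).indicator measurableSet_Ioo
  rw [lintegral_tsum fun k => (hmn k).aemeasurable]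
  have h2 : ∀ k : ℕ, ∫⁻ x, (Ioo (z - 2 ^ k * y) (z + 2 ^ k * y)).indicator
      (fun x => ENNReal.ofReal (4 * (1 / 4) ^ k) * w x) x ≤
      ENNReal.ofReal (4 * Q * θ ^ k) * m w z y := by
    intro k
    rw [lintegral_indicator measurableSet_Ioo, lintegral_const_mul _ h.meas]
    have h3 := h.grow (z := z) hy k
    rw [← hθdef] at h3
    have e1 : ∫⁻ x in Ioo (z - 2 ^ k * y) (z + 2 ^ k * y), w x =
        ENNReal.ofReal (mr w z (2 ^ k * y)) := (ENNReal.ofReal_toReal (h.m_fin _ _)).symm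
    have e2 : m w z y = ENNReal.ofReal (mr w z y) := (ENNReal.ofReal_toReal (h.m_fin _ _)).symm
    rw [e1, e2, ← ENNReal.ofReal_mul (by positivity), ← ENNReal.ofReal_mul (by positivity)]
    apply ENNReal.ofReal_le_ofReal
    calc 4 * (1 / 4) ^ k * mr w z (2 ^ k * y)
        ≤ 4 * (1 / 4) ^ k * (Q * (4 * θ) ^ k * mr w z y) := by gcongr
      _ = 4 * Q * θ ^ k * mr w z y := by
          rw [mul_pow, one_div, inv_pow]
          field_simp
  refine (ENNReal.tsum_le_tsum h2).trans ?_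
  rw [ENNReal.tsum_mul_right]
  refine mul_le_mul_left ?_ _
  have hs : Summable fun k : ℕ => 4 * (Q : ℝ) * θ ^ k :=
    (summable_geometric_of_lt_one hθ hθ1).mul_left _
  rw [← ENNReal.ofReal_tsum_of_nonneg (fun k => by positivity) hs, tsum_mul_left,
    tsum_geometric_of_lt_one hθ hθ1, hθ2]
  rw [← ENNReal.ofReal_coe_nnreal]
  apply ENNReal.ofReal_le_ofReal
  push_cast
  rw [one_div, inv_inv]
  nlinarith

theorem W2.of_ap {w : ℝ → ℝ≥0∞} {Q : ℝ≥0} (h : APd 2 w Q) : W2 w Q where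
  meas := h.meas
  pos := h.pos
  fin := h.fin
  a2 := by
    intro z y hy
    have h1 := h.ap z y hy
    norm_num at h1
    have e : ∀ x, w x ^ (-1 : ℝ) = (w x)⁻¹ := fun x => ENNReal.rpow_neg_one _
    simp_rw [e] at h1
    rw [of2 y]
    exact h1

theorem ab : S_AB := by
  intro Q
  refine ⟨64 * Q ^ 2, fun w hw => ?_⟩
  have h := W2.of_ap hw
  exact ⟨h.tail, h.inv.tail, fun z y => h.inv.m_fin z y⟩

end Pool.Agent.Q224.GL
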