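import Pool.Agent.Q269.GL.StC
import Pool.Agent.Q149.GR.SMD

/-!
# Project GL (helper269): facts about the laws `lawR` (by helper224)
-/

set_option autoImplicit false
set_option linter.all false

open scoped Classical
open Finset

namespace Pool.Agent.Q224.GL

open Pool.Agent.Q269.GL
open Pool.Agent.Q269.GR (Un)

theorem ord_ge {r : ℕ} (hr : Odd r) (h1 : 1 < r) : 2 ≤ orderOf (2 : ZMod r) := by
  have h4 := (Pool.Agent.Q149.GR.ord_two hr h1).1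
  by_contra h
  have : 2 ^ orderOf (2 : ZMod r) ≤ 2 ^ 1 := Nat.pow_le_pow_right (by norm_num) (by omega)
  omega

/-- the laws are laws -/
theorem lawR_facts (h3 : S_LWU) (h4 : S_LWN) {r : ℕ} (hr : Odd r) (h1 : 1 < r) :
    (∀ j, 0 < lawR r j) ∧ HasSum (lawR r) 1 := by
  have ho := ord_ge hr h1
  unfold lawR
  by_cases hU : Un r
  · rw [if_pos hU]
    have hQ : (1 : ℝ) < 2 ^ (orderOf (2 : ZMod r) / 2) :=
      one_lt_pow₀ (by norm_num) (by omega)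
    exact ⟨(h3 _ hQ).1, (h3 _ hQ).2.2⟩
  · rw [if_neg hU]
    have hQ : (1 : ℝ) < 2 ^ (orderOf (2 : ZMod r)) :=
      one_lt_pow₀ (by norm_num) (by omega)
    exact ⟨(h4 _ hQ).1, (h4 _ hQ).2.2⟩

theorem lawR_le (h3 : S_LWU) (h4 : S_LWN) {r : ℕ} (hr : Odd r) (h1 : 1 < r) (j : ℕ) :
    lawR r j ≤ 1 := by
  obtain ⟨h, hs⟩ := lawR_facts h3 h4 hr h1
  exact le_hasSum hs j fun i _ => (h i).le

theorem lawR_prod (h3 : S_LWU) (h4 : S_LWN) {R : Finset (ℕ × ℕ)}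
    (hR : ∀ p ∈ R, Odd p.1 ∧ 1 < p.1) (τ : ℕ × ℕ → ℕ) :
    0 ≤ ∏ p ∈ R, lawR p.1 (τ p) ∧ ∏ p ∈ R, lawR p.1 (τ p) ≤ 1 :=
  ⟨prod_nonneg fun p hp => ((lawR_facts h3 h4 (hR p hp).1 (hR p hp).2).1 _).le,
    prod_le_one (fun p hp => ((lawR_facts h3 h4 (hR p hp).1 (hR p hp).2).1 _).le)
      (fun p hp => lawR_le h3 h4 (hR p hp).1 (hR p hp).2 _)⟩

end Pool.Agent.Q224.GL
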