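import Pool.Agent.Q224.GJ.ENA
import Pool.Agent.Q224.GL.Law

/-!
# Project GL (helper269), job GL-ENL (by helper224)

This generalises `t_ENA` of `Pool/Agent/Q224/GJ/ENA.lean`.
-/

set_option autoImplicit false
set_option linter.all false

open scoped Classical
open Finset Polynomial

namespace Pool.Agent.Q224.GL

open Pool.Agent.Q269.GL
open Pool.Agent.Q269.GR (F2 dl Irn Dn pr xi Pfam dg Ce IsCe erT tn XA Fr)
open Pool.Agent.Q269.GJ (KD Hyn eT IsR AdmD sfx smv nn S_GEN)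
open Pool.Agent.Y164.PS (L sg)
open Pool.Agent.Y164.HG (Geo Del)
open Pool.Agent.Q150.GR (mem_XA xa_move xa_inj xa_sub sum_ind card_split dec_XA)

variable {k : Type} [Field k] [Fintype k]

/-- the numerical estimate -/
theorem num_nnM {C M n t : ℕ} (ht : 64 * (C + 3) ≤ t) {σ lam : ℕ} (h1 : 100 * σ ≤ t)
    (h2 : t ^ 2 ≤ 8 * lam) :
    (2 : ℝ) ^ (n ^ 2 + 2 + (C + 2) * σ + M) * (5 / 6) ^ lam ≤ 2 ^ (n ^ 2 + 2 + M) / 2 ^ t := by
  have h3 : 8 * ((C + 3) * t) ≤ lam := by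
    have : 64 * (C + 3) * t ≤ t * t := Nat.mul_le_mul_right t ht
    nlinarith
  have h4 : (5 / 6 : ℝ) ^ lam ≤ (5 / 6) ^ (8 * ((C + 3) * t)) :=
    pow_le_pow_of_le_one (by norm_num) (by norm_num) h3
  have h5 : (5 / 6 : ℝ) ^ (8 * ((C + 3) * t)) ≤ (1 / 4) ^ ((C + 3) * t) := by
    rw [pow_mul]
    exact pow_le_pow_left₀ (by norm_num) (by norm_num) _
  have h6 : n ^ 2 + 2 + (C + 2) * σ + M ≤ n ^ 2 + 2 + M + (C + 3) * t := by
    have : (C + 2) * (100 * σ) ≤ (C + 2) * t := Nat.mul_le_mul_left (C + 2) h1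
    nlinarith
  have h7 : (2 : ℝ) ^ (n ^ 2 + 2 + (C + 2) * σ + M) ≤ 2 ^ (n ^ 2 + 2 + M + (C + 3) * t) :=
    pow_le_pow_right₀ (by norm_num) h6
  calc (2 : ℝ) ^ (n ^ 2 + 2 + (C + 2) * σ + M) * (5 / 6) ^ lam ≤
        2 ^ (n ^ 2 + 2 + M + (C + 3) * t) * (1 / 4) ^ ((C + 3) * t) :=
        mul_le_mul h7 (h4.trans h5) (by positivity) (by positivity)
    _ = 2 ^ (n ^ 2 + 2 + M) / 2 ^ ((C + 3) * t) := by
        have : (1 / 4 : ℝ) ^ ((C + 3) * t) = 1 / (2 ^ ((C + 3) * t) * 2 ^ ((C + 3) * t)) := by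
          rw [← mul_pow, div_pow, one_pow]; norm_num
        rw [this, pow_add (2 : ℝ) (n ^ 2 + 2 + M)]
        have h0 : (2 : ℝ) ^ ((C + 3) * t) ≠ 0 := by positivity
        field_simp
    _ ≤ 2 ^ (n ^ 2 + 2 + M) / 2 ^ t := by
        apply div_le_div_of_nonneg_left (by positivity) (by positivity)
        exact pow_le_pow_right₀ (by norm_num) (by nlinarith)

/-- the numbers of the fixed and moving primes in a cell -/
theorem cell_sm (h7 : Pool.Agent.Q269.GR.S_PRD) {Δ : k[X]} (hΔ : Δ ≠ 0) {m M : ℕ} {P0 : Fin M → k[X]}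
    (hc : IsCe Δ P0 (univ.filter fun i => tn m ^ 40 < dg P0 i))
    (hX : ∏ i, P0 i ∈ XA Δ m) {r : ℕ} (hr : Odd r) (hr1 : 1 < r) (hr8 : r ≤ tn m ^ 8) :
    100 * sfx P0 (univ.filter fun i => tn m ^ 40 < dg P0 i) r ≤ tn m ∧
    tn m ^ 2 ≤ 8 * smv P0 (univ.filter fun i => tn m ^ 40 < dg P0 i) r := by
  obtain ⟨-, hty⟩ := (mem_XA h7 hΔ hc.fam).1 hX
  generalize tn m = t at hty hr8 ⊢
  obtain ⟨y1, y2, y3, y4⟩ := hty
  constructor
  · refine le_trans (Nat.mul_le_mul_left _ ?_) y2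
    unfold sfx
    apply card_le_card
    intro i hi
    simp only [mem_filter, mem_univ, true_and, not_lt] at hi ⊢
    exact hi.1
  · have h := y4 r hr hr1 hr8
    unfold smv
    rw [filter_filter]
    exact h

theorem erT_nonneg (N : ℕ) {m : ℕ} (P0 : Fin m → k[X]) (mv : Finset (Fin m)) (x : ℝ) :
    0 ≤ erT N P0 mv x := by
  unfold erT
  exact sum_nonneg fun i _ => sum_nonneg fun j _ => by split_ifs <;> positivity

theorem nn_nonneg (n : ℕ) {m : ℕ} (P0 : Fin m → k[X]) (mv : Finset (Fin m)) (r : ℕ) :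
    0 ≤ nn n P0 mv r := by
  unfold nn
  positivity

/-- **JOB GL-ENL** -/
theorem t_ENL (h1 : S_CLL) (h2 : Pool.Agent.Q269.GR.S_DEC) (h3 : Pool.Agent.Q269.GR.S_TYA)
    (h4 : Pool.Agent.Q269.GR.S_ERA) (h5 : S_GEN) (h6 : Pool.Agent.Q269.GR.S_TNP)
    (h7 : Pool.Agent.Q269.GR.S_PRD) (h8 : Pool.Agent.Q269.GR.S_AVP) (h9 : S_LWU) (h10 : S_LWN) :
    S_ENL := by
  intro k _ _ n a N₀ H hq R hR τ ε hε
  have hΔ0 : Del a ≠ 0 := H.del_ne
  obtain ⟨C, M, hcll⟩ := h1 n H.hn H.hn3 R hR τ (ε / 8) (by positivity)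
  obtain ⟨N, hN⟩ : ∃ N, N = ∏ p ∈ R, p.1 := ⟨_, rfl⟩
  have hNodd : Odd N := by
    rw [hN]
    refine Finset.prod_induction _ Odd (fun a b ha hb => ha.mul hb) odd_one fun p hp => (hR.1 p hp).1
  have hN0 : 0 < N := hNodd.pos
  have hNd : ∀ p ∈ R, p.1 ∣ N := fun p hp => by rw [hN]; exact dvd_prod_of_mem _ hp
  have hT := h6.1
  obtain ⟨π, hπ⟩ : ∃ π : ℝ, π = ∏ p ∈ R, lawR p.1 (τ p) := ⟨_, rfl⟩
  have hπ01 := lawR_prod h9 h10 (R := R) (fun p hp => ⟨(hR.1 p hp).1, (hR.1 p hp).2.1⟩) τ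
  rw [← hπ] at hπ01
  obtain ⟨hπ0, hπ1⟩ := hπ01
  have hlim : Filter.Tendsto (fun t : ℕ => (R.card : ℝ) * (2 ^ (n ^ 2 + 2 + M) / 2 ^ t))
      Filter.atTop (nhds 0) := by
    have h0 : Filter.Tendsto (fun t : ℕ => ((R.card : ℝ) * 2 ^ (n ^ 2 + 2 + M)) * (1 / 2) ^ t)
        Filter.atTop (nhds (((R.card : ℝ) * 2 ^ (n ^ 2 + 2 + M)) * 0)) :=
      (tendsto_pow_atTop_nhds_zero_of_lt_one (by norm_num) (by norm_num)).const_mul _
    rw [mul_zero] at h0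
    refine h0.congr fun t => ?_
    rw [one_div, inv_pow]
    ring
  filter_upwards [Pool.Agent.Q224.GJ.cell_unif h4 h5 h6 h7 H hq (ε := ε / 8) (by positivity),
    h3 k hq (Del a) hΔ0 (ε / 2) (by positivity),
    hT.eventually (Filter.eventually_ge_atTop (max N (∑ p ∈ R, p.1))),
    hT.eventually (Filter.eventually_ge_atTop 1), Filter.eventually_ge_atTop 1,
    hT.eventually (Filter.eventually_ge_atTop (64 * (C + 3))),
    (hlim.comp hT).eventually (gt_mem_nhds (show (0 : ℝ) < ε / 8 by positivity))] with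
    m n1 n2 n3 n4 n5 n6 n7 f hf
  obtain ⟨Δ, hΔ⟩ : ∃ Δ, Δ = Del a := ⟨_, rfl⟩
  rw [← hΔ] at n1 hΔ0 n2 hf ⊢
  rw [← hπ]
  obtain ⟨hdeg, hcell⟩ := n1
  have ht8 : tn m ≤ tn m ^ 8 := Nat.le_self_pow (by norm_num) _
  have hNt : N ≤ tn m ^ 8 := (le_max_left _ _).trans (n3.trans ht8)
  have hSt : ∑ p ∈ R, p.1 ≤ tn m ^ 8 := (le_max_right _ _).trans (n3.trans ht8)
  have ht1 : (1 : ℝ) ≤ (tn m : ℝ) ^ 16 := one_le_pow₀ (by exact_mod_cast n4)
  have hr8 : ∀ p ∈ R, p.1 ≤ tn m ^ 8 := fun p hp => (single_le_sum (f := fun p : ℕ × ℕ => p.1)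
    (fun _ _ => Nat.zero_le _) hp).trans hSt
  have hkey : ∀ (M' : ℕ) (P0 : Fin M' → k[X]) (mv : Finset (Fin M')),
      (mv = univ.filter fun i => tn m ^ 40 < dg P0 i) → IsCe Δ P0 mv → ∏ i, P0 i ∈ XA Δ m →
      |(((Fintype.piFinset (Ce P0 mv)).filter fun T => f (∏ i, T i) ∧
      ∀ p ∈ R, Module.finrank (Fr p.1) (KD p.1 (xi p.1 ^ p.2) a (∏ i, T i)) = τ p).card : ℝ) -
    π * (((Fintype.piFinset (Ce P0 mv)).filter fun T => f (∏ i, T i)).card : ℝ)| ≤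
      ε / 2 * (Fintype.piFinset (Ce P0 mv)).card := by
    intro M' P0 mv hmv hc hX
    obtain ⟨c1, c2⟩ := hcell M' P0 (by rw [← hmv]; exact hc) hX R hR hSt N hN0 hNt
    rw [← hmv] at c1 c2
    have hcla := hcll k H.hk H.hm hq Δ hΔ0 a N M' P0 mv hc hNodd hNd c1 f hf
    rw [← hπ] at hcla
    refine hcla.trans ?_
    apply mul_le_mul_of_nonneg_right _ (Nat.cast_nonneg _)
    have k1 : ∑ p ∈ R, nnM C M n P0 mv p.1 ≤ (R.card : ℝ) * (2 ^ (n ^ 2 + 2 + M) / 2 ^ tn m) := by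
      have : ∀ p ∈ R, nnM C M n P0 mv p.1 ≤ 2 ^ (n ^ 2 + 2 + M) / 2 ^ tn m := by
        intro p hp
        obtain ⟨s1, s2⟩ := cell_sm h7 hΔ0 (by rw [← hmv]; exact hc) hX (hR.1 p hp).1 (hR.1 p hp).2.1
          (hr8 p hp)
        rw [← hmv] at s1 s2
        exact num_nnM n6 s1 s2
      refine (sum_le_sum this).trans ?_
      rw [sum_const, nsmul_eq_mul]
    have k2 : (R.card : ℝ) * (2 ^ (n ^ 2 + 2 + M) / 2 ^ tn m) < ε / 8 := n7
    have k3 : 0 ≤ ∑ p ∈ R, nn n P0 mv p.1 := sum_nonneg fun p _ => nn_nonneg n P0 mv p.1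
    have k4 : 0 ≤ erT N P0 mv (2 ^ eT n Δ M' R) := erT_nonneg N P0 mv _
    have k5 : ∑ p ∈ R, nn n P0 mv p.1 + 2 * erT N P0 mv (2 ^ eT n Δ M' R) ≤ ε / 8 := by
      obtain ⟨z, hz⟩ : ∃ z : ℝ, z = ∑ p ∈ R, nn n P0 mv p.1 + 2 * erT N P0 mv (2 ^ eT n Δ M' R) :=
        ⟨_, rfl⟩
      have hz0 : 0 ≤ z := by
        rw [hz]
        exact add_nonneg k3 (mul_nonneg (by norm_num) k4)
      rw [← hz] at c2 ⊢
      nlinarith
    linarith
  have hdec1 := dec_XA h2 h7 hΔ0 hdeg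
    (fun D => π * (if f D then 1 else 0) - ε / 2)
    (fun D => if f D ∧ ∀ p ∈ R, Module.finrank (Fr p.1) (KD p.1 (xi p.1 ^ p.2) a D) = τ p
      then 1 else 0) (by
      intro M' P0 mv hmv hc hX
      have hk := (abs_le.1 (hkey M' P0 mv hmv hc hX)).1
      rw [sum_sub_distrib, ← mul_sum, sum_ind, sum_ind, sum_const, nsmul_eq_mul]
      linarith)
  have hdec2 := dec_XA h2 h7 hΔ0 hdeg
    (fun D => if f D ∧ ∀ p ∈ R, Module.finrank (Fr p.1) (KD p.1 (xi p.1 ^ p.2) a D) = τ p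
      then 1 else 0)
    (fun D => π * (if f D then 1 else 0) + ε / 2) (by
      intro M' P0 mv hmv hc hX
      have hk := (abs_le.1 (hkey M' P0 mv hmv hc hX)).2
      rw [sum_add_distrib, ← mul_sum, sum_ind, sum_ind, sum_const, nsmul_eq_mul]
      linarith)
  rw [sum_sub_distrib, ← mul_sum, sum_ind, sum_ind, sum_const, nsmul_eq_mul] at hdec1
  rw [sum_add_distrib, ← mul_sum, sum_ind, sum_ind, sum_const, nsmul_eq_mul] at hdec2
  have hX : ((XA Δ m).card : ℝ) ≤ (Fintype.card k : ℝ) ^ m := by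
    have k1 : ((XA Δ m).card : ℝ) ≤ ((Dn Δ m).card : ℝ) := by
      exact_mod_cast card_le_card xa_sub
    exact k1.trans (h8 k hq Δ hΔ0 m n5).1
  have hs := card_split (Δ := Δ) (n := m) f
  have hs2 := card_split (Δ := Δ) (n := m) (fun D => f D ∧ ∀ p ∈ R,
    Module.finrank (Fr p.1) (KD p.1 (xi p.1 ^ p.2) a D) = τ p)
  have hsub : (((XA Δ m).filter fun D => f D ∧ ∀ p ∈ R,
      Module.finrank (Fr p.1) (KD p.1 (xi p.1 ^ p.2) a D) = τ p).card : ℝ) ≤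
      (((Dn Δ m).filter fun D => f D ∧ ∀ p ∈ R,
        Module.finrank (Fr p.1) (KD p.1 (xi p.1 ^ p.2) a D) = τ p).card : ℝ) := by
    exact_mod_cast card_le_card (filter_subset_filter _ xa_sub)
  have hsub2 : (((XA Δ m).filter fun D => f D).card : ℝ) ≤
      (((Dn Δ m).filter fun D => f D).card : ℝ) := by
    exact_mod_cast card_le_card (filter_subset_filter _ xa_sub)
  have k2 : π * (((Dn Δ m).filter fun D => f D).card : ℝ) ≤
      π * (((XA Δ m).filter f).card : ℝ) + ((Dn Δ m \ XA Δ m).card : ℝ) := by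
    have k3 := mul_le_mul_of_nonneg_left hs hπ0
    have k4 : π * ((Dn Δ m \ XA Δ m).card : ℝ) ≤ 1 * ((Dn Δ m \ XA Δ m).card : ℝ) :=
      mul_le_mul_of_nonneg_right hπ1 (Nat.cast_nonneg _)
    linarith
  have k3 : π * (((XA Δ m).filter f).card : ℝ) ≤ π * (((Dn Δ m).filter fun D => f D).card : ℝ) :=
    mul_le_mul_of_nonneg_left hsub2 hπ0
  have k5 : ((XA Δ m).card : ℝ) * (ε / 2) ≤ ε / 2 * (Fintype.card k : ℝ) ^ m := by
    rw [mul_comm]
    exact mul_le_mul_of_nonneg_left hX (by positivity)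
  rw [abs_le]
  constructor <;> linarith

end Pool.Agent.Q224.GL
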