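import Pool.Agent.Q165.GL.Stm

/-!
# Project GL of helper165: job GEO
-/

set_option autoImplicit false
set_option linter.all false

namespace Pool.Agent.Q224.GL

open Finset Pool.Agent.Q165.GL

/-- the orientation determinant -/
def DD (y x z : ℝ × ℝ) : ℝ := (x.1 - y.1) * (z.2 - y.2) - (x.2 - y.2) * (z.1 - y.1)

theorem DD_swap (y x z : ℝ × ℝ) : DD x y z = - DD y x z := by
  unfold DD; ring

theorem collinear_of_DD {y x z : ℝ × ℝ} (hxy : x ≠ y) (h : DD y x z = 0) :
    Collinear ℝ {y, x, z} := by
  rw [collinear_iff_of_mem (p₀ := y) (by simp)]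
  refine ⟨x - y, ?_⟩
  have hne : x.1 - y.1 ≠ 0 ∨ x.2 - y.2 ≠ 0 := by
    by_contra hcon
    push Not at hcon
    exact hxy (Prod.ext (by linarith [hcon.1]) (by linarith [hcon.2]))
  unfold DD at h
  intro p hp
  simp only [Set.mem_insert_iff, Set.mem_singleton_iff] at hp
  rcases hp with rfl | rfl | rfl
  · exact ⟨0, by simp⟩
  · exact ⟨1, by simp⟩
  · rcases hne with h1 | h1
    · refine ⟨(p.1 - y.1) / (x.1 - y.1), ?_⟩
      apply Prod.ext
      · simp only [vadd_eq_add, Prod.fst_add, Prod.smul_fst, Prod.fst_sub, smul_eq_mul]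
        field_simp
        ring
      · simp only [vadd_eq_add, Prod.snd_add, Prod.smul_snd, Prod.snd_sub, smul_eq_mul]
        have h2 : (p.1 - y.1) / (x.1 - y.1) * (x.2 - y.2) = p.2 - y.2 := by
          rw [div_mul_eq_mul_div, div_eq_iff h1]
          linarith
        rw [h2]
        ring
    · refine ⟨(p.2 - y.2) / (x.2 - y.2), ?_⟩
      apply Prod.ext
      · simp only [vadd_eq_add, Prod.fst_add, Prod.smul_fst, Prod.fst_sub, smul_eq_mul]
        have h2 : (p.2 - y.2) / (x.2 - y.2) * (x.1 - y.1) = p.1 - y.1 := by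
          rw [div_mul_eq_mul_div, div_eq_iff h1]
          linarith
        rw [h2]
        ring
      · simp only [vadd_eq_add, Prod.snd_add, Prod.smul_snd, Prod.snd_sub, smul_eq_mul]
        field_simp
        ring

theorem exists_dir {n : ℕ} (P : Fin n → ℝ × ℝ) (hP : Function.Injective P) (y : Fin n) :
    ∃ t : ℝ, ∀ x, y ≠ x → ((P x).1 - (P y).1) + t * ((P x).2 - (P y).2) ≠ 0 := by
  classical
  obtain ⟨t, ht⟩ := Infinite.exists_notMem_finset
    (univ.image (fun x : Fin n => -((P x).1 - (P y).1) / ((P x).2 - (P y).2)))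
  refine ⟨t, fun x hx h => ?_⟩
  by_cases h2 : (P x).2 - (P y).2 = 0
  · rw [h2, mul_zero, add_zero] at h
    apply hx
    apply hP
    exact Prod.ext (by linarith) (by linarith)
  · apply ht
    rw [mem_image]
    refine ⟨x, mem_univ _, ?_⟩
    rw [div_eq_iff h2]
    linarith

theorem exists_eps {ι : Type} [Finite ι] (c : ι → Prop) (E D : ι → ℝ) (h : ∀ z, c z → D z ≠ 0) :
    ∃ ε : ℝ, 0 < ε ∧ ∀ z, c z → ε * |E z| < |D z| := by
  have h1 : ∀ z, ∀ᶠ ε : ℝ in nhdsWithin 0 (Set.Ioi 0), c z → ε * |E z| < |D z| := by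
    intro z
    by_cases hz : c z
    · have h2 : Filter.Tendsto (fun ε : ℝ => ε * |E z|) (nhdsWithin 0 (Set.Ioi 0)) (nhds 0) := by
        have h3 : Filter.Tendsto (fun ε : ℝ => ε * |E z|) (nhds 0) (nhds (0 * |E z|)) :=
          (continuous_id.mul continuous_const).tendsto 0
        rw [zero_mul] at h3
        exact h3.mono_left nhdsWithin_le_nhds
      filter_upwards [h2.eventually (gt_mem_nhds (abs_pos.2 (h z hz)))] with ε hε _
      exact hε
    · exact Filter.Eventually.of_forall fun ε hz' => absurd hz' hz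
  have h2 := (Filter.eventually_all.2 h1).and (self_mem_nhdsWithin (a := (0 : ℝ)) (s := Set.Ioi 0))
  obtain ⟨ε, hε, hε0⟩ := h2.exists
  exact ⟨ε, hε0, hε⟩

/-- **Job GEO.** -/
theorem geo : Pool.Agent.Q165.GL.S_GEO := by
  classical
  intro n P G c hP hc
  choose t ht using exists_dir P hP.1
  set a : Fin n → Fin n → ℝ := fun y x => ((P x).1 - (P y).1) + t y * ((P x).2 - (P y).2) with ha
  set r : Fin n → Fin n → ℝ := fun y x => (((P x).2 - (P y).2) - t y * ((P x).1 - (P y).1)) / a y x
    with hr
  have hchi : ∀ y x z, y ≠ x → y ≠ z → a y x * a y z * (r y z - r y x) =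
      (1 + t y ^ 2) * DD (P y) (P x) (P z) := by
    intro y x z hyx hyz
    have h1 := ht y x hyx
    have h2 := ht y z hyz
    have h1' : a y x ≠ 0 := h1
    have h2' : a y z ≠ 0 := h2
    have e1 : a y x * a y z * (r y z - r y x) =
        a y x * (((P z).2 - (P y).2) - t y * ((P z).1 - (P y).1)) -
          a y z * (((P x).2 - (P y).2) - t y * ((P x).1 - (P y).1)) := by
      simp only [hr]
      field_simp
    rw [e1]
    simp only [ha, DD]
    ring
  have hD : ∀ y x z, y ≠ x → y ≠ z → x ≠ z → DD (P y) (P x) (P z) ≠ 0 := by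
    intro y x z hyx hyz hxz h
    exact hP.2 y x z hyx hyz hxz (collinear_of_DD (fun h => hyx (hP.1 h).symm) h)
  have hpos : ∀ y, 0 < 1 + t y ^ 2 := fun y => by positivity
  let V : Views (Fin n) :=
    { a := a
      r := r
      ha := fun y x hyx => ht y x hyx
      hr := by
        intro y x z hyx hyz hxz h
        have h1 := hchi y x z hyx hyz
        rw [h, sub_self, mul_zero] at h1
        exact mul_ne_zero (hpos y).ne' (hD y x z hyx hyz hxz) h1.symm
      swap := by
        intro y x z hyx hyz hxz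
        rw [hchi y x z hyx hyz, hchi x y z hyx.symm hxz, DD_swap (P y) (P x) (P z)]
        rw [mul_pos_iff_of_pos_left (hpos y), mul_neg, neg_lt_zero, mul_pos_iff_of_pos_left (hpos x)] }
  refine ⟨V, ?_⟩
  intro y x hyx σ τ
  set u1 : ℝ := (P x).1 - (P y).1 with hu1
  set u2 : ℝ := (P x).2 - (P y).2 with hu2
  have hu : u1 ^ 2 + u2 ^ 2 ≠ 0 := by
    intro h
    have h1 : u1 = 0 := by nlinarith [sq_nonneg u1, sq_nonneg u2]
    have h2 : u2 = 0 := by nlinarith [sq_nonneg u1, sq_nonneg u2]
    apply hyx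
    apply hP.1
    exact Prod.ext (by linarith) (by linarith)
  set s : ℝ := if σ then 1 else -1 with hs
  set q : ℝ := if τ then 1 else -1 with hq
  obtain ⟨ε, hε, hεz⟩ := exists_eps (fun z : Fin n => z ≠ y ∧ z ≠ x)
    (fun z => s + (q - s) * (u1 * ((P z).1 - (P y).1) + u2 * ((P z).2 - (P y).2)) / (u1 ^ 2 + u2 ^ 2))
    (fun z => DD (P y) (P x) (P z)) (fun z hz => hD y x z hyx hz.1.symm hz.2.symm)
  set A : ℝ := -u2 + ε * (q - s) * u1 / (u1 ^ 2 + u2 ^ 2) with hA
  set B : ℝ := u1 + ε * (q - s) * u2 / (u1 ^ 2 + u2 ^ 2) with hB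
  set d : ℝ := A * (P y).1 + B * (P y).2 - ε * s with hd
  have hAB : A ≠ 0 ∨ B ≠ 0 := by
    by_contra hcon
    push Not at hcon
    have h1 : -u2 * A + u1 * B = u1 ^ 2 + u2 ^ 2 := by
      rw [hA, hB]
      field_simp
      ring
    rw [hcon.1, hcon.2, mul_zero, mul_zero, add_zero] at h1
    exact hu h1.symm
  set g : ℝ × ℝ → ℝ := fun p => A * p.1 + B * p.2 - d with hg
  have hgy : g (P y) = ε * s := by simp only [hg, hd]; ring
  have hgx : g (P x) = ε * q := by
    have h1 : g (P x) = A * u1 + B * u2 + ε * s := by simp only [hg, hd, hu1, hu2]; ring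
    rw [h1, hA, hB]
    field_simp
    ring
  have hgz : ∀ z, g (P z) = DD (P y) (P x) (P z) + ε *
      (s + (q - s) * (u1 * ((P z).1 - (P y).1) + u2 * ((P z).2 - (P y).2)) / (u1 ^ 2 + u2 ^ 2)) := by
    intro z
    have h1 : g (P z) = A * ((P z).1 - (P y).1) + B * ((P z).2 - (P y).2) + ε * s := by
      simp only [hg, hd]; ring
    rw [h1, hA, hB]
    simp only [DD]
    rw [← hu1, ← hu2]
    field_simp
    ring
  have hside : ∀ z, (side V y x σ τ z ∧ 0 < g (P z)) ∨ (¬ side V y x σ τ z ∧ g (P z) < 0) := by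
    intro z
    by_cases hzy : z = y
    · subst hzy
      have h1 : side V z x σ τ z ↔ σ := by
        unfold side
        constructor
        · rintro (h | h | h)
          · exact h.2
          · exact absurd h.1 hyx
          · exact absurd rfl h.1
        · exact fun h => Or.inl ⟨rfl, h⟩
      rw [h1, hgy, hs]
      by_cases hσ : σ
      · left
        refine ⟨hσ, ?_⟩
        rw [if_pos hσ, mul_one]
        exact hε
      · right
        refine ⟨hσ, ?_⟩
        rw [if_neg hσ]
        linarith
    · by_cases hzx : z = x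
      · subst hzx
        have h1 : side V y z σ τ z ↔ τ := by
          unfold side
          constructor
          · rintro (h | h | h)
            · exact absurd h.1 hzy
            · exact h.2
            · exact absurd rfl h.2.1
          · exact fun h => Or.inr (Or.inl ⟨rfl, h⟩)
        rw [h1, hgx, hq]
        by_cases hτ : τ
        · left
          refine ⟨hτ, ?_⟩
          rw [if_pos hτ, mul_one]
          exact hε
        · right
          refine ⟨hτ, ?_⟩
          rw [if_neg hτ]
          linarith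
      · have h1 : side V y x σ τ z ↔ 0 < DD (P y) (P x) (P z) := by
          have e1 : V.chi y x z = (1 + t y ^ 2) * DD (P y) (P x) (P z) :=
            hchi y x z hyx (Ne.symm hzy)
          unfold side
          rw [e1, mul_pos_iff_of_pos_left (hpos y)]
          constructor
          · rintro (h | h | h)
            · exact absurd h.1 hzy
            · exact absurd h.1 hzx
            · exact h.2.2
          · exact fun h => Or.inr (Or.inr ⟨hzy, hzx, h⟩)
        have h2 := hεz z ⟨hzy, hzx⟩
        rw [h1, hgz z]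
        set Ez : ℝ := s + (q - s) * (u1 * ((P z).1 - (P y).1) + u2 * ((P z).2 - (P y).2)) /
          (u1 ^ 2 + u2 ^ 2) with hEz
        have h3 : |ε * Ez| < |DD (P y) (P x) (P z)| := by
          rw [abs_mul, abs_of_pos hε]
          exact h2
        rcases lt_or_gt_of_ne (hD y x z hyx (Ne.symm hzy) (Ne.symm hzx)) with h4 | h4
        · right
          refine ⟨not_lt.2 h4.le, ?_⟩
          rw [abs_of_neg h4] at h3
          have h5 := (abs_lt.1 h3).2
          linarith
        · left
          refine ⟨h4, ?_⟩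
          rw [abs_of_pos h4] at h3
          have h5 := (abs_lt.1 h3).1
          linarith
  refine le_trans ?_ (hc A B d hAB)
  unfold cut cnt met
  rw [← Set.ncard_coe_finset]
  refine Set.ncard_le_ncard_of_injOn (fun w : Fin n × Fin n => s(w.1, w.2)) ?_ ?_ (Set.toFinite _)
  · intro w hw
    rw [coe_filter] at hw
    obtain ⟨-, hadj, hw1, hw2⟩ := hw
    refine ⟨hadj, w.1, w.2, rfl, ?_⟩
    have hg1 : 0 < g (P w.1) := by
      rcases hside w.1 with h | h
      · exact h.2
      · exact absurd hw1 h.1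
    have hg2 : g (P w.2) < 0 := by
      rcases hside w.2 with h | h
      · exact absurd h.1 hw2
      · exact h.2
    have hgg : 0 < g (P w.1) - g (P w.2) := by linarith
    refine ⟨(-g (P w.2) / (g (P w.1) - g (P w.2))) • P w.1 +
      (g (P w.1) / (g (P w.1) - g (P w.2))) • P w.2, ?_, ?_⟩
    · refine ⟨_, _, div_pos (by linarith) hgg, div_pos hg1 hgg, ?_, rfl⟩
      field_simp
      ring
    · show A * _ + B * _ = d
      simp only [Prod.fst_add, Prod.snd_add, Prod.smul_fst, Prod.smul_snd, smul_eq_mul]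
      have e1 : A * (P w.1).1 + B * (P w.1).2 = g (P w.1) + d := by simp only [hg]; ring
      have e2 : A * (P w.2).1 + B * (P w.2).2 = g (P w.2) + d := by simp only [hg]; ring
      set X := g (P w.1) with hX
      set Y := g (P w.2) with hY
      have e3 : A * (-Y / (X - Y) * (P w.1).1 + X / (X - Y) * (P w.2).1) +
          B * (-Y / (X - Y) * (P w.1).2 + X / (X - Y) * (P w.2).2) =
          (-Y * (A * (P w.1).1 + B * (P w.1).2) + X * (A * (P w.2).1 + B * (P w.2).2)) / (X - Y) := by
        field_simp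
        ring
      rw [e3, e1, e2, div_eq_iff hgg.ne']
      ring
  · intro w hw w' hw' h
    rw [coe_filter] at hw hw'
    obtain ⟨-, -, hw1, hw2⟩ := hw
    obtain ⟨-, -, hw1', hw2'⟩ := hw'
    rcases Sym2.eq_iff.1 h with h | h
    · exact Prod.ext h.1 h.2
    · exact absurd (h.1 ▸ hw1) hw2'

end Pool.Agent.Q224.GL
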