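import Pool.Agent.Q224.GL.Law

/-!
# Project GL (helper269), job GL-INF (by helper224)
-/

set_option autoImplicit false
set_option linter.all false

open scoped Classical
open Finset Polynomial Filter

namespace Pool.Agent.Q224.GL

open Pool.Agent.Q269.GL
open Pool.Agent.Q269.GR (F2 dl Irn Dn pr xi Pfam dg Ce IsCe erT tn XA Fr)
open Pool.Agent.Q269.GJ (KD IsR AdmD GoodA OO tl)
open Pool.Agent.Y164.PS (L sg)
open Pool.Agent.Y164.HG (Geo Del)

variable {k : Type} [Field k] [Fintype k]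

/-- the pairs -/
noncomputable def Rq (T : Set ℕ) (y : ℕ) : Finset (ℕ × ℕ) :=
  ((range (y + 1)) ×ˢ (range (y + 1))).filter fun p => Td T p.1 ∧ p.2 ∈ rp p.1

theorem mem_Rq {T : Set ℕ} {y : ℕ} {p : ℕ × ℕ} :
    p ∈ Rq T y ↔ p.1 ∈ (range (y + 1)).filter (Td T) ∧ p.2 ∈ rp p.1 := by
  unfold Rq
  rw [mem_filter, mem_product, mem_filter]
  constructor
  · rintro ⟨⟨h1, h2⟩, h3, h4⟩
    exact ⟨⟨h1, h3⟩, h4⟩
  · rintro ⟨⟨h1, h3⟩, h4⟩
    refine ⟨⟨h1, ?_⟩, h3, h4⟩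
    have h5 : p.2 ∈ range p.1 := by
      unfold rp at h4
      exact (mem_filter.1 h4).1
    rw [mem_range] at h1 h5 ⊢
    omega

theorem prod_Rq (T : Set ℕ) (y : ℕ) (g : ℕ → ℝ) :
    ∏ p ∈ Rq T y, g p.1 = ∏ r ∈ (range (y + 1)).filter (Td T), g r ^ (rp r).card := by
  rw [Finset.prod_finset_product (Rq T y) ((range (y + 1)).filter (Td T)) rp (fun p => mem_Rq)]
  refine Finset.prod_congr rfl fun r _ => ?_
  exact Finset.prod_const (g r)

theorem isR_Rq (h : S_RPX) {T : Set ℕ} (hT : Adt T) (y : ℕ) : IsR (Rq T y) := by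
  apply h.1
  · intro p hp
    obtain ⟨h1, h2⟩ := mem_Rq.1 hp
    have h3 := (mem_filter.1 h1).2
    refine ⟨hT.1 _ h3.1, h3.2, ?_⟩
    unfold rp at h2
    exact (mem_filter.1 h2).2.1
  · intro p hp p' hp' hne he hcj
    obtain ⟨h1, h2⟩ := mem_Rq.1 hp
    obtain ⟨h1', h2'⟩ := mem_Rq.1 hp'
    have h3 := (mem_filter.1 h1).2
    apply hne
    rw [← he] at h2'
    have := h.2.2.1 p.1 (hT.1 _ h3.1) h3.2 p.2 h2 p'.2 h2' hcj
    exact Prod.ext he this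

/-- a good order -/
theorem good_iff (h4 : S_RPX) (h5 : S_CJD) {n : ℕ} {a : Fin n → k[X]} {N : ℕ} (H : Geo a N)
    {m : ℕ} {D : k[X]} (hD : D ∈ Dn (Del a) m) {r : ℕ} (hr : Odd r) (hr1 : 1 < r) :
    GoodA r a D ↔ ∀ u ∈ rp r, Module.finrank (Fr r) (KD r (xi r ^ u) a D) = 0 := by
  constructor
  · intro h u hu
    have hu2 : Nat.Coprime u r := by
      unfold rp at hu
      exact (mem_filter.1 hu).2.1
    rw [h u hu2]
    exact finrank_bot _ _
  · intro h u hu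
    obtain ⟨v, hv, hcj⟩ := h4.2.1 r hr hr1 u hu
    have hv2 : Nat.Coprime v r := by
      have := hv
      unfold rp at this
      exact (mem_filter.1 this).2.1
    have h6 := h5 k H.hk H.hm (Del a) H.del_ne n H.hn a m D hD r v u hr hr1 hv2 hcj
    rw [h v hv] at h6
    exact Submodule.finrank_eq_zero.1 h6

/-- **JOB GL-INF** -/
theorem t_INF (h1 : S_ENL) (h2 : Pool.Agent.Q269.GJ.S_EB1) (h3 : Pool.Agent.Q269.GJ.S_EB2)
    (h4 : S_RPX) (h5 : S_CJD) (h6 : S_TPR) (h7 : Pool.Agent.Q269.GJ.S_ABS)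
    (h8 : Pool.Agent.Q269.GR.S_PRD) (h9 : Pool.Agent.Q269.GR.S_XIR)
    (h10 : Pool.Agent.Q269.GR.S_AVP) : S_INF := by
  intro k _ _ n a N H hq T hT ε hε
  obtain ⟨R, hR⟩ := hT.2
  have hOO : ∀ r, Td T r → OO R r := fun r hr => ⟨hT.1 r hr.1, hr.2, hR r hr.1⟩
  obtain ⟨-, htl0, htl⟩ := h7 R
  obtain ⟨hP0, hP⟩ := h6 T hT
  have hε8 : 0 < ε / 8 := by positivity
  obtain ⟨y, hy1, hy2⟩ := ((htl.eventually (gt_mem_nhds hε8)).and
    (hP.eventually (Metric.ball_mem_nhds _ hε8))).exists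
  have hy2' : |(∏ r ∈ (range (y + 1)).filter (Td T), lawR r 0 ^ (rp r).card) - PT T| < ε / 8 := by
    have := hy2
    rw [Real.dist_eq] at this
    exact this
  have e1 := h1 k n a N H hq (Rq T y) (isR_Rq h4 hT y) (fun _ => 0) (ε / 8) hε8
  have e2 := h2 k n a N H hq R (ε / 8) hε8
  have e3 := h3 k n a N H hq R (ε / 8) hε8
  filter_upwards [e1, e2, e3, Filter.eventually_ge_atTop 1] with m g1 g2 g3 g4 f hf
  have g1' := g1 f hf
  have g2' := g2 f hf y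
  rw [prod_Rq T y (fun r => lawR r 0)] at g1'
  set qn : ℝ := (Fintype.card k : ℝ) ^ m with hqn
  set Py : ℝ := ∏ r ∈ (range (y + 1)).filter (Td T), lawR r 0 ^ (rp r).card with hPy
  have hDq : ((Dn (Del a) m).card : ℝ) ≤ qn := (h10 k hq (Del a) H.del_ne m g4).1
  have hAq : (((Dn (Del a) m).filter fun D => f D).card : ℝ) ≤ qn := by
    refine le_trans ?_ hDq
    exact_mod_cast card_le_card (filter_subset _ _)
  have hA0 : (0 : ℝ) ≤ (((Dn (Del a) m).filter fun D => f D).card : ℝ) := Nat.cast_nonneg _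
  -- the two sets
  have hin : ((Dn (Del a) m).filter fun D => f D ∧ ∀ r : ℕ, Td T r → GoodA r a D) ⊆
      (Dn (Del a) m).filter fun D => f D ∧
        ∀ p ∈ Rq T y, Module.finrank (Fr p.1) (KD p.1 (xi p.1 ^ p.2) a D) = 0 := by
    intro D hD
    rw [mem_filter] at hD ⊢
    refine ⟨hD.1, hD.2.1, fun p hp => ?_⟩
    obtain ⟨c1, c2⟩ := mem_Rq.1 hp
    have c3 := (mem_filter.1 c1).2
    exact (good_iff h4 h5 H hD.1 (hT.1 _ c3.1) c3.2).1 (hD.2.2 _ c3) _ c2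
  have hout : ((Dn (Del a) m).filter fun D => f D ∧
        ∀ p ∈ Rq T y, Module.finrank (Fr p.1) (KD p.1 (xi p.1 ^ p.2) a D) = 0) ⊆
      ((Dn (Del a) m).filter fun D => f D ∧ ∀ r : ℕ, Td T r → GoodA r a D) ∪
      (((Dn (Del a) m).filter fun D =>
      f D ∧ ∃ r : ℕ, OO R r ∧ y < r ∧ r ≤ tn m ^ 8 ∧ ¬ GoodA r a D) ∪
      ((Dn (Del a) m).filter fun D =>
      ∃ r : ℕ, OO R r ∧ tn m ^ 8 < r ∧ ¬ GoodA r a D)) := by
    intro D hD
    rw [mem_filter] at hD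
    obtain ⟨hD1, hD2, hD3⟩ := hD
    by_cases hall : ∀ r : ℕ, Td T r → GoodA r a D
    · exact mem_union_left _ (mem_filter.2 ⟨hD1, hD2, hall⟩)
    · push Not at hall
      obtain ⟨r, hr1, hr3⟩ := hall
      have hry : y < r := by
        by_contra hle
        apply hr3
        rw [good_iff h4 h5 H hD1 (hT.1 _ hr1.1) hr1.2]
        intro u hu
        exact hD3 (r, u) (mem_Rq.2 ⟨mem_filter.2 ⟨mem_range.2 (by omega), hr1⟩, hu⟩)
      apply mem_union_right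
      by_cases hrt : r ≤ tn m ^ 8
      · exact mem_union_left _ (mem_filter.2 ⟨hD1, hD2, r, hOO r hr1, hry, hrt, hr3⟩)
      · exact mem_union_right _ (mem_filter.2 ⟨hD1, r, hOO r hr1, not_le.1 hrt, hr3⟩)
  have hc1 : ((((Dn (Del a) m).filter fun D => f D ∧ ∀ r : ℕ, Td T r → GoodA r a D).card : ℕ) : ℝ) ≤
      (((Dn (Del a) m).filter fun D => f D ∧
        ∀ p ∈ Rq T y, Module.finrank (Fr p.1) (KD p.1 (xi p.1 ^ p.2) a D) = 0).card : ℝ) := by
    exact_mod_cast card_le_card hin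
  have hc2 : (((Dn (Del a) m).filter fun D => f D ∧
        ∀ p ∈ Rq T y, Module.finrank (Fr p.1) (KD p.1 (xi p.1 ^ p.2) a D) = 0).card : ℝ) ≤
      ((((Dn (Del a) m).filter fun D => f D ∧ ∀ r : ℕ, Td T r → GoodA r a D).card : ℕ) : ℝ) +
      ((((Dn (Del a) m).filter fun D =>
      f D ∧ ∃ r : ℕ, OO R r ∧ y < r ∧ r ≤ tn m ^ 8 ∧ ¬ GoodA r a D).card : ℝ) +
      (((Dn (Del a) m).filter fun D =>
      ∃ r : ℕ, OO R r ∧ tn m ^ 8 < r ∧ ¬ GoodA r a D).card : ℝ)) := by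
    exact_mod_cast (card_le_card hout).trans ((card_union_le _ _).trans
      (Nat.add_le_add_left (card_union_le _ _) _))
  obtain ⟨A, hA⟩ : ∃ A : ℝ, A = (((Dn (Del a) m).filter fun D => f D).card : ℝ) := ⟨_, rfl⟩
  rw [← hA] at g1' g2' hAq hA0 ⊢
  have hq0 : 0 ≤ qn := hA0.trans hAq
  have k1 : tl R y * A ≤ ε / 8 * qn := mul_le_mul hy1.le hAq hA0 hε8.le
  have k2 : |Py * A - PT T * A| ≤ ε / 8 * qn := by
    rw [← sub_mul, abs_mul, abs_of_nonneg hA0]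
    exact mul_le_mul hy2'.le hAq hA0 hε8.le
  rw [abs_le] at g1' k2 ⊢
  constructor <;> nlinarith [g1'.1, g1'.2, k2.1, k2.2, mul_nonneg hε.le hq0]

end Pool.Agent.Q224.GL
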