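import Pool.Agent.Q64.GL.Stm

/-!
# Project GL, job PK: positivity, Cauchy-Schwarz and mass of Poisson integrals
-/

set_option autoImplicit false

open MeasureTheory Set Filter Topology
open scoped ENNReal NNReal Real

namespace Pool.Agent.Q224.GL

open Pool.Agent.Q64.GL

/-- the Poisson kernel -/
noncomputable def pk (z y t : ℝ) : ℝ := 1 / π * (y / ((t - z) ^ 2 + y ^ 2))

theorem pk_pos {z y : ℝ} (hy : 0 < y) (t : ℝ) : 0 < pk z y t := by
  unfold pk
  have := Real.pi_pos
  positivity

theorem pk_meas (z y : ℝ) : Measurable (pk z y) := by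
  unfold pk
  fun_prop

theorem poisson_eq (f : ℝ → ℝ) (z y : ℝ) : poisson f z y = ∫ t, pk z y t * f t := by
  unfold poisson
  have h := integral_sub_left_eq_self (fun t => y * f t / ((t - z) ^ 2 + y ^ 2)) volume z
  have e : ∀ x, y * f (z - x) / ((z - x - z) ^ 2 + y ^ 2) = y * f (z - x) / (x ^ 2 + y ^ 2) := by
    intro x
    congr 2
    ring
  simp_rw [e] at h
  rw [h, ← integral_const_mul]
  congr 1
  ext t
  unfold pk
  ring

theorem pk_le {z y : ℝ} (hy : 0 < y) (t : ℝ) :
    pk z y t ≤ (1 / π * (y * (2 + (1 + 2 * z ^ 2) / y ^ 2))) * (1 / (1 + t ^ 2)) := by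
  unfold pk
  have hpi := Real.pi_pos
  have h1 : 1 + t ^ 2 ≤ (2 + (1 + 2 * z ^ 2) / y ^ 2) * ((t - z) ^ 2 + y ^ 2) := by
    have h2 : (1 + 2 * z ^ 2) / y ^ 2 * ((t - z) ^ 2 + y ^ 2) =
        (1 + 2 * z ^ 2) / y ^ 2 * (t - z) ^ 2 + (1 + 2 * z ^ 2) := by
      field_simp
    have h3 : 0 ≤ (1 + 2 * z ^ 2) / y ^ 2 * (t - z) ^ 2 := by positivity
    nlinarith [sq_nonneg (t - 2 * z)]
  have h2 : (0 : ℝ) < (t - z) ^ 2 + y ^ 2 := by positivity
  have h3 : (0 : ℝ) < 1 + t ^ 2 := by positivity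
  rw [mul_assoc]
  refine mul_le_mul_of_nonneg_left ?_ (by positivity)
  rw [mul_one_div, div_le_div_iff₀ h2 h3]
  nlinarith

theorem pk_int {f : ℝ → ℝ} (hf : Measurable f)
    (hi : Integrable (fun x => f x / (1 + x ^ 2)) volume) {z y : ℝ} (hy : 0 < y) :
    Integrable (fun t => pk z y t * f t) volume := by
  have h1 := hi.const_mul (1 / π * (y * (2 + (1 + 2 * z ^ 2) / y ^ 2)))
  refine h1.mono ((pk_meas z y).mul hf).aestronglyMeasurable (Eventually.of_forall fun t => ?_)
  have hpi := Real.pi_pos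
  rw [Real.norm_eq_abs, Real.norm_eq_abs, abs_mul, abs_mul, abs_div, abs_of_pos (pk_pos hy t),
    abs_of_pos (show (0 : ℝ) < 1 + t ^ 2 by positivity),
    abs_of_pos (show 0 < 1 / π * (y * (2 + (1 + 2 * z ^ 2) / y ^ 2)) by positivity)]
  calc pk z y t * |f t|
      ≤ ((1 / π * (y * (2 + (1 + 2 * z ^ 2) / y ^ 2))) * (1 / (1 + t ^ 2))) * |f t| :=
        mul_le_mul_of_nonneg_right (pk_le hy t) (abs_nonneg _)
    _ = 1 / π * (y * (2 + (1 + 2 * z ^ 2) / y ^ 2)) * (|f t| / (1 + t ^ 2)) := by ring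

theorem int_div {f : ℝ → ℝ} (hf : Measurable f) (hi : Integrable f volume) :
    Integrable (fun x => f x / (1 + x ^ 2)) volume := by
  refine hi.mono (hf.div (by fun_prop)).aestronglyMeasurable (Eventually.of_forall fun t => ?_)
  rw [Real.norm_eq_abs, Real.norm_eq_abs, abs_div, abs_of_pos (show (0 : ℝ) < 1 + t ^ 2 by positivity)]
  refine div_le_self (abs_nonneg _) ?_
  nlinarith [sq_nonneg t]

theorem integral_pos' {g : ℝ → ℝ} (hg : Integrable g volume) (h : ∀ x, 0 < g x) : 0 < ∫ x, g x := by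
  rw [integral_pos_iff_support_of_nonneg (fun x => (h x).le) hg]
  have e : Function.support g = univ := by
    ext x
    simp [(h x).ne']
  rw [e]
  simp

theorem cs_real {A B F : ℝ → ℝ} (hA : Integrable A volume) (hB : Integrable B volume)
    (hF : Integrable F volume) (h : ∀ x s, 0 ≤ A x - 2 * s * F x + s ^ 2 * B x)
    (hBp : 0 < ∫ x, B x) : (∫ x, F x) ^ 2 ≤ (∫ x, A x) * ∫ x, B x := by
  set s : ℝ := (∫ x, F x) / ∫ x, B x with hs
  have h1 : 0 ≤ ∫ x, (A x - 2 * s * F x + s ^ 2 * B x) := integral_nonneg fun x => h x s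
  have e : ∫ x, (A x - 2 * s * F x + s ^ 2 * B x) =
      (∫ x, A x) - 2 * s * (∫ x, F x) + s ^ 2 * ∫ x, B x := by
    have i1 : Integrable (fun x => 2 * s * F x) volume := hF.const_mul _
    have i2 : Integrable (fun x => A x - 2 * s * F x) volume := hA.sub i1
    have i3 : Integrable (fun x => s ^ 2 * B x) volume := hB.const_mul _
    rw [integral_add i2 i3, integral_sub hA i1, integral_const_mul, integral_const_mul]
  rw [e] at h1
  have h2 : s * ∫ x, B x = ∫ x, F x := div_mul_cancel₀ _ hBp.ne'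
  have h3 : 0 ≤ ((∫ x, A x) - 2 * s * (∫ x, F x) + s ^ 2 * ∫ x, B x) * ∫ x, B x :=
    mul_nonneg h1 hBp.le
  have h4 : ((∫ x, A x) - 2 * s * (∫ x, F x) + s ^ 2 * ∫ x, B x) * ∫ x, B x =
      (∫ x, A x) * (∫ x, B x) - 2 * (s * ∫ x, B x) * (∫ x, F x) + (s * ∫ x, B x) ^ 2 := by ring
  rw [h4, h2] at h3
  linarith

theorem quad {a f w s : ℝ} (ha : 0 ≤ a) (hw : 0 < w) :
    0 ≤ a * (f ^ 2 * w) - 2 * s * (a * f) + s ^ 2 * (a * w⁻¹) := by
  have e : a * (f ^ 2 * w) - 2 * s * (a * f) + s ^ 2 * (a * w⁻¹) = a * (w * (f - s * w⁻¹) ^ 2) := by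
    field_simp
    ring
  rw [e]
  positivity

theorem pk_total {z y : ℝ} (hy : 0 < y) : ∫ t, pk z y t = 1 := by
  have h1 : ∫ t, pk z y t = ∫ t, pk 0 y t := by
    have h := integral_sub_right_eq_self (fun t => pk 0 y t) (μ := volume) z
    rw [← h]
    congr 1
    ext t
    unfold pk
    rw [sub_zero]
  rw [h1]
  have h2 : ∀ t, pk 0 y t = (1 / (π * y)) * (fun s : ℝ => (1 + s ^ 2)⁻¹) (t / y) := by
    intro t
    unfold pk
    simp only
    have hpi := Real.pi_pos
    have : (0 : ℝ) < t ^ 2 + y ^ 2 := by positivity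
    have h3 : (0 : ℝ) < y ^ 2 + t ^ 2 := by positivity
    rw [sub_zero]
    field_simp
    rw [add_comm]
  simp_rw [h2]
  rw [integral_const_mul, Measure.integral_comp_div (fun s : ℝ => (1 + s ^ 2)⁻¹) y,
    integral_univ_inv_one_add_sq, abs_of_pos hy, smul_eq_mul]
  have hpi := Real.pi_pos
  field_simp

theorem pk_int1 {z y : ℝ} (hy : 0 < y) : Integrable (pk z y) volume := by
  by_contra h
  have h1 := integral_undef h
  rw [pk_total hy] at h1
  exact one_ne_zero h1

theorem t_pk : S_PK := by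
  refine ⟨?_, ?_, ?_, ?_⟩
  · intro w hw hpos hi z y hy
    rw [poisson_eq]
    exact integral_pos' (pk_int hw hi hy) fun t => mul_pos (pk_pos hy t) (hpos t)
  · intro w f hw hpos hf hwi hfi
    have hd : Integrable (fun x => f x / (1 + x ^ 2)) volume := by
      have hm : Measurable fun x => f x ^ 2 * w x := (hf.pow_const 2).mul hw
      have h1 := ((int_div hm hfi).add hwi).div_const 2
      refine h1.mono (hf.div (by fun_prop)).aestronglyMeasurable
        (Eventually.of_forall fun t => ?_)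
      have h2 := hpos t
      have h3 : (0 : ℝ) < 1 + t ^ 2 := by positivity
      have h4 : 0 ≤ 1 * (|f t| ^ 2 * w t) - 2 * 1 * (1 * |f t|) + 1 ^ 2 * (1 * (w t)⁻¹) :=
        quad zero_le_one h2
      rw [sq_abs] at h4
      simp only [Pi.add_apply]
      rw [Real.norm_eq_abs, Real.norm_eq_abs, abs_div, abs_of_pos h3, ← add_div, div_div,
        abs_of_nonneg (show 0 ≤ (f t ^ 2 * w t + (w t)⁻¹) / ((1 + t ^ 2) * 2) by positivity),
        div_le_div_iff₀ h3 (by positivity)]
      nlinarith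
    refine ⟨hd, fun z y hy => ?_⟩
    rw [poisson_eq, poisson_eq, poisson_eq]
    have hm : Measurable fun x => f x ^ 2 * w x := (hf.pow_const 2).mul hw
    refine cs_real (pk_int hm (int_div hm hfi) hy) (pk_int hw.inv hwi hy) (pk_int hf hd hy)
      (fun x s => quad (pk_pos hy x).le (hpos x)) ?_
    exact integral_pos' (pk_int hw.inv hwi hy) fun t => mul_pos (pk_pos hy t) (inv_pos.2 (hpos t))
  · intro w hw hpos hi hwi z y hy
    rw [poisson_eq, poisson_eq]
    have h1 := cs_real (A := fun t => pk z y t * w t) (B := fun t => pk z y t * (w t)⁻¹)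
      (F := pk z y) (pk_int hw hi hy) (pk_int hw.inv hwi hy) (pk_int1 hy) (fun x s => by
        have := quad (a := pk z y x) (f := 1) (w := w x) (s := s) (pk_pos hy x).le (hpos x)
        simpa using this)
      (integral_pos' (pk_int hw.inv hwi hy) fun t => mul_pos (pk_pos hy t) (inv_pos.2 (hpos t)))
    rw [pk_total hy, one_pow] at h1
    exact h1
  · intro h hh h0 hi y hy
    have h1 : ∀ z, ENNReal.ofReal (poisson h z y) =
        ∫⁻ t, ENNReal.ofReal (pk z y t) * ENNReal.ofReal (h t) := by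
      intro z
      rw [poisson_eq, ofReal_integral_eq_lintegral_ofReal (pk_int hh (int_div hh hi) hy)
        (Eventually.of_forall fun t => mul_nonneg (pk_pos hy t).le (h0 t))]
      congr 1
      ext t
      rw [ENNReal.ofReal_mul (pk_pos hy t).le]
    simp_rw [h1]
    rw [lintegral_lintegral_swap]
    · have h2 : ∀ t, ∫⁻ z, ENNReal.ofReal (pk z y t) * ENNReal.ofReal (h t) =
          ENNReal.ofReal (h t) := by
        intro t
        have h3 : ∀ z, pk z y t = pk t y z := by
          intro z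
          unfold pk
          congr 3
          ring
        simp_rw [h3]
        rw [lintegral_mul_const _ ((pk_meas t y).ennreal_ofReal),
          ← ofReal_integral_eq_lintegral_ofReal (pk_int1 hy)
            (Eventually.of_forall fun z => (pk_pos hy z).le), pk_total hy]
        simp
      simp_rw [h2]
      rw [ofReal_integral_eq_lintegral_ofReal hi (Eventually.of_forall h0)]
    · have m1 : Measurable fun a : ℝ × ℝ => ENNReal.ofReal (pk a.1 y a.2) := by
        apply Measurable.ennreal_ofReal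
        unfold pk
        fun_prop
      have m2 : Measurable fun a : ℝ × ℝ => ENNReal.ofReal (h a.2) :=
        (hh.comp measurable_snd).ennreal_ofReal
      exact (m1.mul m2).aemeasurable

end Pool.Agent.Q224.GL
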