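import Pool.Agent.Q64.GL.Stm

/-!
# Project GL, job RDF: the algorithm of Rubio de Francia
-/

set_option autoImplicit false

open MeasureTheory Set Filter Topology
open scoped ENNReal NNReal Real

namespace Pool.Agent.Q224.GL

open Pool.Agent.Q64.GL

theorem half_sum (M : ℕ) :
    ∑ n ∈ Finset.range M, (2⁻¹ : ℝ≥0∞) ^ (n + 1) + (2⁻¹ : ℝ≥0∞) ^ M = 1 := by
  induction M with
  | zero => simp
  | succ M ih =>
    rw [Finset.sum_range_succ, add_assoc]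
    have e : (2⁻¹ : ℝ≥0∞) ^ (M + 1) + (2⁻¹ : ℝ≥0∞) ^ (M + 1) = (2⁻¹ : ℝ≥0∞) ^ M := by
      rw [pow_succ, ← mul_add, ENNReal.inv_two_add_inv_two, mul_one]
    rw [e]
    exact ih

theorem jensen_fin {p : ℝ} (hp : 1 ≤ p) (z : ℕ → ℝ≥0∞) (M : ℕ) :
    (∑ n ∈ Finset.range M, (2⁻¹ : ℝ≥0∞) ^ n * z n) ^ p ≤
      2 ^ p * ∑ n ∈ Finset.range M, (2⁻¹ : ℝ≥0∞) ^ (n + 1) * z n ^ p := by
  have hp0 : 0 < p := by linarith
  have e1 : ∑ n ∈ Finset.range M, (2⁻¹ : ℝ≥0∞) ^ n * z n =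
      2 * ∑ n ∈ Finset.range M, (2⁻¹ : ℝ≥0∞) ^ (n + 1) * z n := by
    rw [Finset.mul_sum]
    refine Finset.sum_congr rfl fun n _ => ?_
    rw [pow_succ, ← mul_assoc, mul_comm (2 : ℝ≥0∞) ((2⁻¹ : ℝ≥0∞) ^ n * 2⁻¹), mul_assoc _ _ (2 : ℝ≥0∞),
      ENNReal.inv_mul_cancel (by norm_num) (by norm_num), mul_one]
  rw [e1, ENNReal.mul_rpow_of_nonneg _ _ hp0.le]
  gcongr
  let w' : ℕ → ℝ≥0∞ := fun n => if n < M then (2⁻¹ : ℝ≥0∞) ^ (n + 1) else (2⁻¹ : ℝ≥0∞) ^ M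
  let z' : ℕ → ℝ≥0∞ := fun n => if n < M then z n else 0
  have hw : ∑ n ∈ Finset.range (M + 1), w' n = 1 := by
    rw [Finset.sum_range_succ]
    have h1 : ∑ n ∈ Finset.range M, w' n = ∑ n ∈ Finset.range M, (2⁻¹ : ℝ≥0∞) ^ (n + 1) :=
      Finset.sum_congr rfl fun n hn => if_pos (Finset.mem_range.1 hn)
    have h2 : w' M = (2⁻¹ : ℝ≥0∞) ^ M := if_neg (lt_irrefl M)
    rw [h1, h2]
    exact half_sum M
  have h := ENNReal.rpow_arith_mean_le_arith_mean_rpow (Finset.range (M + 1)) w' z' hw hp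
  rw [Finset.sum_range_succ, Finset.sum_range_succ] at h
  have hz : z' M = 0 := if_neg (lt_irrefl M)
  rw [hz, mul_zero, add_zero, ENNReal.zero_rpow_of_pos hp0, mul_zero, add_zero] at h
  have h1 : ∑ n ∈ Finset.range M, w' n * z' n =
      ∑ n ∈ Finset.range M, (2⁻¹ : ℝ≥0∞) ^ (n + 1) * z n := by
    refine Finset.sum_congr rfl fun n hn => ?_
    have hn' := Finset.mem_range.1 hn
    simp only [w', z', if_pos hn']
  have h2 : ∑ n ∈ Finset.range M, w' n * z' n ^ p =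
      ∑ n ∈ Finset.range M, (2⁻¹ : ℝ≥0∞) ^ (n + 1) * z n ^ p := by
    refine Finset.sum_congr rfl fun n hn => ?_
    have hn' := Finset.mem_range.1 hn
    simp only [w', z', if_pos hn']
  rw [h1, h2] at h
  exact h

theorem jensen_tsum {p : ℝ} (hp : 1 ≤ p) (z : ℕ → ℝ≥0∞) :
    (∑' n, (2⁻¹ : ℝ≥0∞) ^ n * z n) ^ p ≤ 2 ^ p * ∑' n, (2⁻¹ : ℝ≥0∞) ^ (n + 1) * z n ^ p := by
  have h1 : Tendsto (fun M => (∑ n ∈ Finset.range M, (2⁻¹ : ℝ≥0∞) ^ n * z n) ^ p) atTop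
      (𝓝 ((∑' n, (2⁻¹ : ℝ≥0∞) ^ n * z n) ^ p)) :=
    (ENNReal.continuous_rpow_const.tendsto _).comp (ENNReal.tendsto_nat_tsum _)
  refine le_of_tendsto' h1 fun M => ?_
  refine (jensen_fin hp z M).trans ?_
  gcongr
  exact ENNReal.sum_le_tsum _

theorem rdf : S_TMM → S_RDF := by
  intro TMM p a hp ha C
  obtain ⟨hTm, hTs, hTc, _⟩ := TMM a ha
  have hp0 : 0 < p := by linarith
  set N : ℝ≥0 := C ^ (1 / p) + 1 with hN
  have hN0 : (N : ℝ≥0∞) ≠ 0 := by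
    rw [hN]
    simp
  have hNt : (N : ℝ≥0∞) ≠ ∞ := ENNReal.coe_ne_top
  have hCN : (C : ℝ≥0∞) ≤ (N : ℝ≥0∞) ^ p := by
    rw [← ENNReal.coe_rpow_of_nonneg _ hp0.le, ENNReal.coe_le_coe]
    calc C = (C ^ (1 / p)) ^ p := by
            rw [← NNReal.rpow_mul, one_div_mul_cancel hp0.ne', NNReal.rpow_one]
      _ ≤ N ^ p := by
            apply NNReal.rpow_le_rpow _ hp0.le
            rw [hN]
            exact le_self_add
  refine ⟨2 * N + 2 ^ p, fun u hu hbd f hf => ?_⟩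
  -- the iteration
  let g : ℕ → ℝ → ℝ≥0∞ := fun n => Nat.rec f (fun _ h x => (N : ℝ≥0∞)⁻¹ * TM a h x) n
  have hg0 : g 0 = f := rfl
  have hgs : ∀ n x, g (n + 1) x = (N : ℝ≥0∞)⁻¹ * TM a (g n) x := fun n x => rfl
  have hgm : ∀ n, Measurable (g n) := by
    intro n
    cases n with
    | zero => exact hf
    | succ n => exact (hTm (g n)).const_mul _
  have hgT : ∀ n x, TM a (g n) x = N * g (n + 1) x := by
    intro n x
    rw [hgs, ← mul_assoc, ENNReal.mul_inv_cancel hN0 hNt, one_mul]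
  have hint : ∀ n, ∫⁻ x, g n x ^ p * u x ≤ ∫⁻ x, f x ^ p * u x := by
    intro n
    induction n with
    | zero => exact le_rfl
    | succ n ih =>
      refine le_trans ?_ ih
      have e : ∀ x, g (n + 1) x ^ p * u x = (N : ℝ≥0∞)⁻¹ ^ p * (TM a (g n) x ^ p * u x) := by
        intro x
        rw [hgs, ENNReal.mul_rpow_of_nonneg _ _ hp0.le, mul_assoc]
      simp_rw [e]
      have hmm : Measurable fun x => TM a (g n) x ^ p * u x := ((hTm (g n)).pow_const p).mul hu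
      rw [lintegral_const_mul _ hmm]
      refine (mul_le_mul_right (hbd (g n) (hgm n)) _).trans ?_
      rw [← mul_assoc, ENNReal.inv_rpow]
      refine mul_le_of_le_one_left zero_le ?_
      refine (mul_le_mul_right hCN _).trans ?_
      exact ENNReal.inv_mul_le_one _
  let R : ℝ → ℝ≥0∞ := fun x => ∑' n, (2⁻¹ : ℝ≥0∞) ^ n * g n x
  have hRm : Measurable R := Measurable.tsum fun n => (hgm n).const_mul _
  have hKN : (2 : ℝ≥0∞) * N ≤ ((2 * N + 2 ^ p : ℝ≥0) : ℝ≥0∞) := by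
    push_cast
    exact le_self_add
  have hK2 : (2 : ℝ≥0∞) ^ p ≤ ((2 * N + 2 ^ p : ℝ≥0) : ℝ≥0∞) := by
    rw [ENNReal.coe_add, ENNReal.coe_rpow_of_nonneg _ hp0.le]
    push_cast
    exact le_add_self
  refine ⟨R, hRm, ?_, ?_, ?_⟩
  · intro x
    have h := ENNReal.le_tsum (f := fun n => (2⁻¹ : ℝ≥0∞) ^ n * g n x) 0
    rw [pow_zero, one_mul] at h
    exact h
  · intro x
    refine le_trans ?_ (mul_le_mul_left hKN _)
    refine (hTs (fun n x => (2⁻¹ : ℝ≥0∞) ^ n * g n x) (fun n => (hgm n).const_mul _) x).trans ?_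
    have h2 : ∀ n, TM a (fun x => (2⁻¹ : ℝ≥0∞) ^ n * g n x) x ≤
        2 * N * ((2⁻¹ : ℝ≥0∞) ^ (n + 1) * g (n + 1) x) := by
      intro n
      refine (hTc ((2⁻¹ : ℝ≥0∞) ^ n) (g n) (hgm n) (ENNReal.pow_ne_top (by norm_num)) x).trans ?_
      rw [hgT]
      refine le_of_eq ?_
      have e : (2⁻¹ : ℝ≥0∞) ^ n = 2 * (2⁻¹ : ℝ≥0∞) ^ (n + 1) := by
        rw [pow_succ, mul_comm (2 : ℝ≥0∞), mul_assoc,
          ENNReal.inv_mul_cancel (by norm_num) (by norm_num), mul_one]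
      rw [e]
      ring
    refine (ENNReal.tsum_le_tsum h2).trans ?_
    rw [ENNReal.tsum_mul_left]
    gcongr
    have h3 := ENNReal.tsum_comp_le_tsum_of_injective (f := fun n : ℕ => n + 1)
      (add_left_injective 1) (fun n => (2⁻¹ : ℝ≥0∞) ^ n * g n x)
    exact h3
  · have h1 : ∀ x, R x ^ p * u x ≤
        2 ^ p * ∑' n, (2⁻¹ : ℝ≥0∞) ^ (n + 1) * (g n x ^ p * u x) := by
      intro x
      refine (mul_le_mul_left (jensen_tsum hp.le (fun n => g n x)) (u x)).trans ?_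
      rw [mul_assoc, ← ENNReal.tsum_mul_right]
      refine le_of_eq ?_
      congr 1
      refine tsum_congr fun n => ?_
      rw [mul_assoc]
    refine (lintegral_mono h1).trans ?_
    have hmn : ∀ n, Measurable fun x => (2⁻¹ : ℝ≥0∞) ^ (n + 1) * (g n x ^ p * u x) :=
      fun n => (((hgm n).pow_const p).mul hu).const_mul _
    rw [lintegral_const_mul _ (Measurable.tsum hmn),
      lintegral_tsum fun n => (hmn n).aemeasurable]
    refine mul_le_mul' hK2 ?_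
    have h3 : ∀ n, ∫⁻ x, (2⁻¹ : ℝ≥0∞) ^ (n + 1) * (g n x ^ p * u x) ≤
        (2⁻¹ : ℝ≥0∞) ^ (n + 1) * ∫⁻ x, f x ^ p * u x := by
      intro n
      have hmm : Measurable fun x => g n x ^ p * u x := ((hgm n).pow_const p).mul hu
      rw [lintegral_const_mul _ hmm]
      exact mul_le_mul_right (hint n) _
    refine (ENNReal.tsum_le_tsum h3).trans ?_
    rw [ENNReal.tsum_mul_right]
    have h4 : ∑' n : ℕ, (2⁻¹ : ℝ≥0∞) ^ (n + 1) = 1 := by
      have h5 : Tendsto (fun M => ∑ n ∈ Finset.range M, (2⁻¹ : ℝ≥0∞) ^ (n + 1)) atTop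
          (𝓝 (∑' n : ℕ, (2⁻¹ : ℝ≥0∞) ^ (n + 1))) := ENNReal.tendsto_nat_tsum _
      have h6 : Tendsto (fun M : ℕ => (2⁻¹ : ℝ≥0∞) ^ M) atTop (𝓝 0) :=
        ENNReal.tendsto_pow_atTop_nhds_zero_of_lt_one (by norm_num)
      have h7 := h5.add h6
      simp_rw [half_sum] at h7
      rw [add_zero] at h7
      exact (tendsto_nhds_unique h7 tendsto_const_nhds)
    rw [h4, one_mul]

end Pool.Agent.Q224.GL
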