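import Pool.Agent.Q64.GL.Stm
import Pool.Agent.Q224.GL.Ab

/-!
# Project GL, job WW: the modified weight is in `A_2` and satisfies the tail condition
-/

set_option autoImplicit false

open MeasureTheory Set Filter Topology
open scoped ENNReal NNReal Real

namespace Pool.Agent.Q224.GL

open Pool.Agent.Q64.GL

theorem ww : S_WW := by
  intro p lam hp1 hp2 hlam Q T K
  set a : ℝ := lam / 2 with ha
  have ha0 : 0 < a := by positivity
  set K' : ℝ≥0 := K + 1 with hK'
  have hK0 : (K' : ℝ≥0∞) ≠ 0 := by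
    rw [hK']
    simp
  have hKt : (K' : ℝ≥0∞) ≠ ∞ := ENNReal.coe_ne_top
  have hKK : (K : ℝ≥0∞) ≤ K' := by
    rw [hK']
    push_cast
    exact le_self_add
  set c1 : ℝ≥0 := (2 ^ a * K') ^ (2 - p) with hc1
  set c2 : ℝ≥0 := K' ^ (2 - p) with hc2
  have h2p : 0 < 2 - p := by linarith
  have hp10 : 0 < p - 1 := by linarith
  refine ⟨c1 * Q + c2 * T * Q, fun u R hu hT hR hR0 hRt hRm hTM => ?_⟩
  set w : ℝ → ℝ≥0∞ := fun x => u x * R x ^ (p - 2) with hw
  have hwm : Measurable w := hu.meas.mul (hR.pow_const _)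
  have hRp0 : ∀ x, R x ^ (p - 2) ≠ 0 := fun x =>
    (ENNReal.rpow_pos (pos_iff_ne_zero.2 (hR0 x)) (hRt x)).ne'
  have hRpt : ∀ x, R x ^ (p - 2) ≠ ∞ := by
    intro x
    have e : R x ^ (p - 2) = (R x ^ (2 - p))⁻¹ := by
      rw [← ENNReal.rpow_neg]
      congr 1
      ring
    rw [e]
    exact ENNReal.inv_ne_top.2 (ENNReal.rpow_pos (pos_iff_ne_zero.2 (hR0 x)) (hRt x)).ne'
  have hw0 : ∀ x, w x ≠ 0 := fun x => mul_ne_zero (hu.pos x) (hRp0 x)
  have hwt : ∀ x, w x ≠ ∞ := fun x => ENNReal.mul_ne_top (hu.fin x) (hRpt x)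
  -- the average of `R`
  have key : ∀ z y : ℝ, 0 < y →
      m w z y * m (fun x => (w x)⁻¹) z y ≤ c1 * Q * ENNReal.ofReal (2 * y) ^ (2 : ℕ) ∧
      m w z y ≠ ∞ ∧
      ∫⁻ x, ENNReal.ofReal (ker lam x z y) * w x ≤ c2 * T * Q * m w z y := by
    intro z y hy
    set L : ℝ≥0∞ := ENNReal.ofReal (2 * y) with hL
    have hL0 : L ≠ 0 := by
      rw [hL, ne_eq, ENNReal.ofReal_eq_zero]
      linarith
    have hLt : L ≠ ∞ := ENNReal.ofReal_ne_top
    set M : ℝ≥0∞ := m R z y / L with hM
    have hM0 : M ≠ 0 := by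
      rw [hM]
      exact ENNReal.div_ne_zero.2 ⟨m_ne_zero hR hR0 hy, hLt⟩
    have hMt : M ≠ ∞ := ENNReal.div_ne_top (hRm z y) hL0
    have hmR : m R z y = L * M := by
      rw [hM, ENNReal.mul_div_cancel hL0 hLt]
    -- the basic estimate
    have hae : ∀ᵐ x, ENNReal.ofReal (ker a x z y) * M ≤ K' * R x := by
      filter_upwards [hTM] with x hx
      refine le_trans ?_ (hx.trans (mul_le_mul_left hKK _))
      unfold TM
      refine le_trans ?_ (le_iSup _ z)
      refine le_trans ?_ (le_iSup _ y)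
      exact le_iSup (fun _ : 0 < y => ENNReal.ofReal (ker a x z y) *
        (m R z y / ENNReal.ofReal (2 * y))) hy
    have hkpos : ∀ (r x : ℝ), 0 < ker r x z y := by
      intro r x
      unfold Pool.Agent.Q64.GL.ker
      have : 0 < |x - z| + y := by positivity
      positivity
    have hae2 : ∀ᵐ x, R x ^ (p - 2) ≤ c2 * M ^ (p - 2) *
        ENNReal.ofReal (ker a x z y) ^ (p - 2) := by
      filter_upwards [hae] with x hx
      have hk0 : ENNReal.ofReal (ker a x z y) ≠ 0 := by
        rw [ne_eq, ENNReal.ofReal_eq_zero]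
        have := hkpos a x
        linarith
      have h1 : (ENNReal.ofReal (ker a x z y) * M) / K' ≤ R x := by
        rw [ENNReal.div_le_iff hK0 hKt, mul_comm (R x)]
        exact hx
      have h2 : R x ^ (p - 2) ≤ ((ENNReal.ofReal (ker a x z y) * M) / K') ^ (p - 2) := by
        have e1 : p - 2 = -(2 - p) := by ring
        rw [e1, ENNReal.rpow_neg, ENNReal.rpow_neg]
        exact ENNReal.inv_le_inv.2 (ENNReal.rpow_le_rpow h1 h2p.le)
      refine h2.trans (le_of_eq ?_)
      rw [div_eq_mul_inv, ENNReal.mul_rpow_of_ne_zero (mul_ne_zero hk0 hM0)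
        (ENNReal.inv_ne_zero.2 hKt), ENNReal.mul_rpow_of_ne_zero hk0 hM0, ENNReal.inv_rpow,
        ← ENNReal.rpow_neg, neg_sub]
      rw [hc2, ENNReal.coe_rpow_of_nonneg _ h2p.le]
      ring
    -- (i)
    have hi : m w z y ≤ c1 * M ^ (p - 2) * m u z y := by
      unfold m
      rw [← lintegral_const_mul _ hu.meas]
      refine setLIntegral_mono_ae' measurableSet_Ioo ?_
      filter_upwards [hae2] with x hx hxJ
      have hker : (1 / 2 : ℝ) ^ a ≤ ker a x z y := by
        unfold Pool.Agent.Q64.GL.ker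
        apply Real.rpow_le_rpow (by norm_num) _ ha0.le
        have h3 : |x - z| < y := by
          rw [abs_lt]
          constructor <;> linarith [hxJ.1, hxJ.2]
        rw [div_le_div_iff₀ (by norm_num) (by positivity)]
        linarith
      have h4 : ENNReal.ofReal (ker a x z y) ^ (p - 2) ≤ ((2 : ℝ≥0∞) ^ a) ^ (2 - p) := by
        have e1 : p - 2 = -(2 - p) := by ring
        rw [e1, ENNReal.rpow_neg, ← ENNReal.inv_rpow]
        apply ENNReal.rpow_le_rpow _ h2p.le
        rw [ENNReal.inv_le_iff_inv_le]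
        refine le_trans (le_of_eq ?_) (ENNReal.ofReal_le_ofReal hker)
        rw [← ENNReal.inv_rpow, ← ENNReal.ofReal_rpow_of_nonneg (by norm_num) ha0.le]
        congr 1
        rw [one_div, ENNReal.ofReal_inv_of_pos (by norm_num)]
        norm_num
      calc w x = u x * R x ^ (p - 2) := rfl
        _ ≤ u x * (c2 * M ^ (p - 2) * ENNReal.ofReal (ker a x z y) ^ (p - 2)) :=
            mul_le_mul_right hx _
        _ ≤ u x * (c2 * M ^ (p - 2) * ((2 : ℝ≥0∞) ^ a) ^ (2 - p)) :=
            mul_le_mul_right (mul_le_mul_right h4 _) _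
        _ = c1 * M ^ (p - 2) * u x := by
            rw [hc1, hc2, NNReal.mul_rpow, ENNReal.coe_mul, ENNReal.coe_rpow_of_nonneg _ h2p.le,
              ENNReal.coe_rpow_of_nonneg _ h2p.le, ENNReal.coe_rpow_of_nonneg _ ha0.le]
            push_cast
            ring
    -- Hoelder for the inverse
    set Sg : ℝ≥0∞ := m (fun x => u x ^ (-1 / (p - 1))) z y with hSg
    have hinv : m (fun x => (w x)⁻¹) z y ≤ Sg ^ (p - 1) * (L * M) ^ (2 - p) := by
      have h := ENNReal.lintegral_mul_norm_pow_le (μ := volume.restrict (Ioo (z - y) (z + y)))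
        (f := fun x => u x ^ (-1 / (p - 1))) (g := R) (hu.meas.pow_const _).aemeasurable
        hR.aemeasurable (p := p - 1) (q := 2 - p) hp10.le h2p.le (by ring)
      have e : ∀ x, (u x ^ (-1 / (p - 1))) ^ (p - 1) * R x ^ (2 - p) = (w x)⁻¹ := by
        intro x
        rw [← ENNReal.rpow_mul, div_mul_cancel₀ _ hp10.ne', ENNReal.rpow_neg_one, hw,
          ENNReal.mul_inv (Or.inl (hu.pos x)) (Or.inl (hu.fin x)), ← ENNReal.rpow_neg, neg_sub]
      simp_rw [e] at h
      rw [← hmR]
      exact h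
    have hap := hu.ap z y hy
    rw [← hSg, ← hL] at hap
    have hMM : M ^ (p - 2) * M ^ (2 - p) = 1 := by
      rw [← ENNReal.rpow_add _ _ hM0 hMt]
      norm_num
    have hLL : L ^ p * L ^ (2 - p) = L ^ (2 : ℕ) := by
      rw [← ENNReal.rpow_add _ _ hL0 hLt, ← ENNReal.rpow_natCast]
      congr 1
      push_cast
      ring
    have hprod : m w z y * m (fun x => (w x)⁻¹) z y ≤ c1 * Q * L ^ (2 : ℕ) := by
      calc m w z y * m (fun x => (w x)⁻¹) z y
          ≤ (c1 * M ^ (p - 2) * m u z y) * (Sg ^ (p - 1) * (L * M) ^ (2 - p)) :=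
            mul_le_mul' hi hinv
        _ = c1 * (M ^ (p - 2) * M ^ (2 - p)) * (m u z y * Sg ^ (p - 1)) * L ^ (2 - p) := by
            rw [ENNReal.mul_rpow_of_nonneg _ _ h2p.le]
            ring
        _ ≤ c1 * (M ^ (p - 2) * M ^ (2 - p)) * (Q * L ^ p) * L ^ (2 - p) := by gcongr
        _ = c1 * Q * (L ^ p * L ^ (2 - p)) := by rw [hMM]; ring
        _ = c1 * Q * L ^ (2 : ℕ) := by rw [hLL]
    have hwfin : m w z y ≠ ∞ := by
      refine ne_top_of_le_ne_top ?_ hi
      refine ENNReal.mul_ne_top (ENNReal.mul_ne_top ENNReal.coe_ne_top ?_) (hu.loc z y)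
      have e1 : p - 2 = -(2 - p) := by ring
      rw [e1, ENNReal.rpow_neg]
      exact ENNReal.inv_ne_top.2 (ENNReal.rpow_pos (pos_iff_ne_zero.2 hM0) hMt).ne'
    -- (ii)
    have hii : M ^ (p - 2) * m u z y ≤ Q * m w z y := by
      have h1 := cs hwm hw0 hwt z y
      rw [← hL] at h1
      have h2 : L ^ (2 : ℕ) * m u z y ≤ L ^ (2 : ℕ) * (Q * M ^ (2 - p) * m w z y) := by
        calc L ^ (2 : ℕ) * m u z y
            ≤ (m w z y * m (fun x => (w x)⁻¹) z y) * m u z y := mul_le_mul_left h1 _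
          _ ≤ (m w z y * (Sg ^ (p - 1) * (L * M) ^ (2 - p))) * m u z y :=
              mul_le_mul_left (mul_le_mul_right hinv _) _
          _ = m w z y * (m u z y * Sg ^ (p - 1)) * (L ^ (2 - p) * M ^ (2 - p)) := by
              rw [ENNReal.mul_rpow_of_nonneg _ _ h2p.le]
              ring
          _ ≤ m w z y * (Q * L ^ p) * (L ^ (2 - p) * M ^ (2 - p)) := by gcongr
          _ = (L ^ p * L ^ (2 - p)) * (Q * M ^ (2 - p) * m w z y) := by ring
          _ = L ^ (2 : ℕ) * (Q * M ^ (2 - p) * m w z y) := by rw [hLL]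
      have hL20 : L ^ (2 : ℕ) ≠ 0 := pow_ne_zero _ hL0
      have hL2t : L ^ (2 : ℕ) ≠ ∞ := ENNReal.pow_ne_top hLt
      have h3 : m u z y ≤ Q * M ^ (2 - p) * m w z y :=
        (ENNReal.mul_le_mul_iff_right hL20 hL2t).1 h2
      calc M ^ (p - 2) * m u z y ≤ M ^ (p - 2) * (Q * M ^ (2 - p) * m w z y) :=
            mul_le_mul_right h3 _
        _ = (M ^ (p - 2) * M ^ (2 - p)) * (Q * m w z y) := by ring
        _ = Q * m w z y := by rw [hMM, one_mul]
    -- (iii)
    have hiii : ∫⁻ x, ENNReal.ofReal (ker lam x z y) * w x ≤ c2 * T * Q * m w z y := by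
      have h1 : ∫⁻ x, ENNReal.ofReal (ker lam x z y) * w x ≤
          ∫⁻ x, c2 * M ^ (p - 2) * (ENNReal.ofReal (ker (lam * p / 2) x z y) * u x) := by
        refine lintegral_mono_ae ?_
        filter_upwards [hae2] with x hx
        have ht0 : 0 < y / (|x - z| + y) := by positivity
        have e1 : ENNReal.ofReal (ker lam x z y) * ENNReal.ofReal (ker a x z y) ^ (p - 2) =
            ENNReal.ofReal (ker (lam * p / 2) x z y) := by
          rw [ENNReal.ofReal_rpow_of_pos (hkpos a x), ← ENNReal.ofReal_mul (hkpos lam x).le]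
          congr 1
          unfold Pool.Agent.Q64.GL.ker
          rw [← Real.rpow_mul ht0.le, ← Real.rpow_add ht0]
          congr 1
          rw [ha]
          ring
        calc ENNReal.ofReal (ker lam x z y) * w x
            = ENNReal.ofReal (ker lam x z y) * (u x * R x ^ (p - 2)) := rfl
          _ ≤ ENNReal.ofReal (ker lam x z y) * (u x * (c2 * M ^ (p - 2) *
                ENNReal.ofReal (ker a x z y) ^ (p - 2))) :=
              mul_le_mul_right (mul_le_mul_right hx _) _
          _ = c2 * M ^ (p - 2) * ((ENNReal.ofReal (ker lam x z y) *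
                ENNReal.ofReal (ker a x z y) ^ (p - 2)) * u x) := by ring
          _ = _ := by rw [e1]
      refine h1.trans ?_
      have hct : (c2 : ℝ≥0∞) * M ^ (p - 2) ≠ ∞ := by
        refine ENNReal.mul_ne_top ENNReal.coe_ne_top ?_
        have e1 : p - 2 = -(2 - p) := by ring
        rw [e1, ENNReal.rpow_neg]
        exact ENNReal.inv_ne_top.2 (ENNReal.rpow_pos (pos_iff_ne_zero.2 hM0) hMt).ne'
      rw [lintegral_const_mul' _ _ hct]
      calc c2 * M ^ (p - 2) * ∫⁻ x, ENNReal.ofReal (ker (lam * p / 2) x z y) * u x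
          ≤ c2 * M ^ (p - 2) * (T * m u z y) := mul_le_mul_right (hT z y hy) _
        _ = c2 * T * (M ^ (p - 2) * m u z y) := by ring
        _ ≤ c2 * T * (Q * m w z y) := mul_le_mul_right hii _
        _ = c2 * T * Q * m w z y := by ring
    exact ⟨hprod, hwfin, hiii⟩
  constructor
  · refine ⟨hwm, hw0, hwt, ?_, ?_⟩
    · intro z y
      rcases le_or_gt y 0 with hy | hy
      · unfold m
        rw [Ioo_eq_empty (by linarith)]
        simp
      · exact (key z y hy).2.1
    · intro z y hy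
      norm_num
      have e : ∀ x, w x ^ (-1 : ℝ) = (w x)⁻¹ := fun x => ENNReal.rpow_neg_one _
      simp_rw [e]
      have h1 := (key z y hy).1
      rw [of2 y] at h1
      refine h1.trans ?_
      gcongr
      exact le_self_add
  · intro z y hy
    refine (key z y hy).2.2.trans ?_
    gcongr
    push_cast
    exact le_add_self

end Pool.Agent.Q224.GL
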